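import Pool.Agent.Lib.MP_2e830d_lc.Red
import Pool.Agent.Lib.MP_186ff7_lc.PCP.PTcnf
import Pool.Agent.Lib.PTime.TM

set_option autoImplicit false

/-!
# The reduction is computable in polynomial time
-/

namespace Pool.Agent.Lib.MP_2e830d_lc

open Turing Pool.Agent.Lib.PT
open Pool.Agent.Lib.MP_c85d9c_lc (Formula Lit)

theorem ptime_product {α β γ : Type} [Enc α] [Enc β] [Enc γ] {f : α → List β} {g : α → List γ}
    (hf : PTime f) (hg : PTime g) : PTime fun a => f a ×ˢ g a := by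
  have h1 : PTime fun p : α × β => (g p.1).map (Prod.mk p.2) := by
    refine PTime.map (l := fun p : α × β => g p.1) (f := fun (p : α × β) (y : γ) => (p.2, y))
      (hg.comp (by fun_prop)) (by fun_prop)
  exact PTime.flatMap (l := f) (f := fun a x => (g a).map (Prod.mk x)) hf h1

theorem ptime_nV : PTime nV := by
  have h1 : PTime fun φ : List (List Lit) => φ.flatMap fun C => C :=
    PTime.flatMap (l := fun φ : List (List Lit) => φ) (f := fun _ C => C) (by fun_prop)
      (by fun_prop)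
  have h2 : PTime fun φ : List (List Lit) => (φ.flatMap fun C => C).map fun l => l.2.2 :=
    PTime.map (f := fun _ (l : Lit) => l.2.2) h1 (by fun_prop)
  refine (PTime.sum h2).of_eq fun φ => ?_
  unfold nV
  rw [List.flatMap_id']

theorem ptime_alB : PTime fun p : List (List Lit) × ℕ × ℕ × Bool => alB p.1 p.2.1 p.2.2.1 p.2.2.2 := by
  unfold alB
  refine PTime.or (by fun_prop) ?_
  refine (PTime.mem (l := fun p : List (List Lit) × ℕ × ℕ × Bool => p.1.getD (p.2.2.1 - 1) [])
    (x := fun p => ((false, p.2.2.2, p.2.1) : Lit)) (by fun_prop) (by fun_prop)).of_eq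
      fun p => ?_
  exact decide_eq_decide.2 Iff.rfl

theorem ptime_verts (ℓ : ℕ) : PTime (verts ℓ) := by
  unfold verts
  have h := ptime_nV
  refine ptime_product (ptime_product (ptime_product (ptime_product ?_ ?_) ?_) ?_) ?_ <;> fun_prop

theorem ptime_cR : PTime fun p : ℕ × CB => cR p.1 p.2 := by
  unfold cR
  exact PTime.ite (p := fun p : ℕ × CB => p.2.2 = true) (by fun_prop) (by fun_prop) (by fun_prop)

theorem ptime_cO : PTime fun p : (ℕ × ℕ) × CB => cO p.1.1 p.1.2 p.2 := by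
  unfold cO
  refine PTime.ite (p := fun p : (ℕ × ℕ) × CB => p.2.2 = true) (by fun_prop) ?_ (by fun_prop)
  have h1 : PTime fun p : (ℕ × ℕ) × CB =>
      (if p.2.1.2 = p.1.2 then (p.2.1.1 + 1) % (p.1.1 + 1) else p.2.1.1) :=
    PTime.ite (p := fun p : (ℕ × ℕ) × CB => p.2.1.2 = p.1.2) (by fun_prop) (by fun_prop)
      (by fun_prop)
  fun_prop

theorem ptime_cT : PTime fun p : ℕ × CB => cT p.1 p.2 := by
  unfold cT
  exact PTime.ite (p := fun p : ℕ × CB => p.2.2 = true) (by fun_prop) (by fun_prop) (by fun_prop)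

theorem ptime_fwd : PTime fun p : (ℕ × ℕ) × (CB × ℕ) × (CB × ℕ) =>
    fwd p.1.1 p.1.2 p.2.1 p.2.2 := by
  unfold fwd
  have h1 : PTime fun p : (ℕ × ℕ) × (CB × ℕ) × (CB × ℕ) => cO p.1.1 p.1.2 p.2.1.1 :=
    ptime_cO.comp (g := fun p : (ℕ × ℕ) × (CB × ℕ) × (CB × ℕ) => (p.1, p.2.1.1)) (by fun_prop)
  have h2 : PTime fun p : (ℕ × ℕ) × (CB × ℕ) × (CB × ℕ) => cR p.1.2 p.2.1.1 :=
    ptime_cR.comp (g := fun p : (ℕ × ℕ) × (CB × ℕ) × (CB × ℕ) => (p.1.2, p.2.1.1)) (by fun_prop)
  have h3 : PTime fun p : (ℕ × ℕ) × (CB × ℕ) × (CB × ℕ) => cT p.1.1 p.2.1.1 :=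
    ptime_cT.comp (g := fun p : (ℕ × ℕ) × (CB × ℕ) × (CB × ℕ) => (p.1.1, p.2.1.1)) (by fun_prop)
  fun_prop

theorem ptime_loc : PTime fun p : List (List Lit) × (CB × ℕ) × (CB × ℕ) =>
    loc p.1 p.2.1 p.2.2 := by
  unfold loc
  have h1 : PTime fun p : List (List Lit) × (CB × ℕ) × (CB × ℕ) =>
      alB p.1 p.2.1.1.1.1 p.2.1.1.1.2 p.2.1.1.2 :=
    ptime_alB.comp (g := fun p : List (List Lit) × (CB × ℕ) × (CB × ℕ) =>
      (p.1, p.2.1.1.1.1, p.2.1.1.1.2, p.2.1.1.2)) (by fun_prop)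
  have h2 : PTime fun p : List (List Lit) × (CB × ℕ) × (CB × ℕ) =>
      decide ((p.2.1.2, p.2.2.2) ∈
        [(0, 1), (1, 2), (2, 3), (3, 4), (4, 5), (0, 5), (6, 7)]) := by
    refine (PTime.mem (l := fun _ : List (List Lit) × (CB × ℕ) × (CB × ℕ) =>
      ([(0, 1), (1, 2), (2, 3), (3, 4), (4, 5), (0, 5), (6, 7)] : List (ℕ × ℕ)))
      (x := fun p => (p.2.1.2, p.2.2.2)) (PTime.const _) (by fun_prop)).of_eq fun p => ?_
    exact decide_eq_decide.2 Iff.rfl
  have h3 : PTime fun p : List (List Lit) × (CB × ℕ) × (CB × ℕ) =>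
      decide ((p.2.1.2, p.2.2.2) ∈ [(5, 6), (0, 7)]) := by
    refine (PTime.mem (l := fun _ : List (List Lit) × (CB × ℕ) × (CB × ℕ) =>
      ([(5, 6), (0, 7)] : List (ℕ × ℕ)))
      (x := fun p => (p.2.1.2, p.2.2.2)) (PTime.const _) (by fun_prop)).of_eq fun p => ?_
    exact decide_eq_decide.2 Iff.rfl
  fun_prop

theorem ptime_bit (ℓ : ℕ) : PTime fun p : List (List Lit) × CV × CV => bit ℓ p.1 p.2.1 p.2.2 := by
  unfold bit
  have h0 : PTime fun p : List (List Lit) × CV × CV => nV p.1 := ptime_nV.comp (by fun_prop)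
  have h1 : PTime fun p : List (List Lit) × CV × CV => fwd (nV p.1) p.1.length p.2.1.1 p.2.2.1 :=
    ptime_fwd.comp (g := fun p : List (List Lit) × CV × CV =>
      ((nV p.1, p.1.length), p.2.1.1, p.2.2.1)) (by fun_prop)
  have h2 : PTime fun p : List (List Lit) × CV × CV => loc p.1 p.2.1.1 p.2.2.1 :=
    ptime_loc.comp (g := fun p : List (List Lit) × CV × CV => (p.1, p.2.1.1, p.2.2.1))
      (by fun_prop)
  fun_prop

theorem ptime_red (ℓ : ℕ) : PTime (red ℓ) := by
  unfold red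
  have h1 : PTime fun p : List (List Lit) × CV => (verts ℓ p.1).map fun w => bit ℓ p.1 p.2 w := by
    refine PTime.map (l := fun p : List (List Lit) × CV => verts ℓ p.1)
      (f := fun (p : List (List Lit) × CV) (w : CV) => bit ℓ p.1 p.2 w)
      ((ptime_verts ℓ).comp (by fun_prop)) ?_
    exact (ptime_bit ℓ).comp (g := fun p : (List (List Lit) × CV) × CV =>
      (p.1.1, p.1.2, p.2)) (by fun_prop)
  exact PTime.map (l := verts ℓ) (f := fun (φ : List (List Lit)) (v : CV) =>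
    (verts ℓ φ).map fun w => bit ℓ φ v w) (ptime_verts ℓ) h1

theorem ptime_encM : PTime encM := by
  unfold encM
  refine PTime.flatMap (l := fun M : List (List Bool) => M)
    (f := fun _ r => none :: r.map some) (by fun_prop) ?_
  have h1 : PTime fun p : List (List Bool) × List Bool => p.2.map some :=
    PTime.map (l := fun p : List (List Bool) × List Bool => p.2) (f := fun _ b => some b)
      (by fun_prop) (by fun_prop)
  fun_prop

/-- The reduction is computable in polynomial time by a Turing machine. -/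
theorem red_computable (ℓ : ℕ) :
    Nonempty (TM2ComputableInPolyTime Formula.encode encM (red ℓ)) := by
  refine ptime_tm' (F := fun w => encM (red ℓ (MP_186ff7_lc.PCP.parseF w)))
    (fun a b h => EncInj.inj h) ?_ fun φ => ?_
  · exact ptime_encM.comp ((ptime_red ℓ).comp MP_186ff7_lc.PCP.ptime_parseF)
  · rw [MP_186ff7_lc.PCP.parseF_encode]

end Pool.Agent.Lib.MP_2e830d_lc
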