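import Pool.Agent.Lib.MP_2e830d_lc.Tail

set_option autoImplicit false

/-!
# Graphs without two vertices of degree three at distance at least six
-/

namespace Pool.Agent.Lib.MP_2e830d_lc

open SimpleGraph

variable {P B W : Type*} {G : PG P} {ℓ : ℕ} {F : SimpleGraph W}

lemma three_nb {a : W} (h : 3 ≤ (F.neighborSet a).ncard) :
    ∃ u v w, F.Adj a u ∧ F.Adj a v ∧ F.Adj a w ∧ u ≠ v ∧ u ≠ w ∧ v ≠ w := by
  have hfin : (F.neighborSet a).Finite := Set.finite_of_ncard_pos (by omega)
  obtain ⟨u, v, w, h1, h2, h3, h4⟩ := (Set.two_lt_ncard_iff hfin).1 (by omega)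
  exact ⟨u, v, w, h1, h2, h3, h4⟩

lemma level_zero (f : Copy F (G.gr ℓ)) {a : W} (h : 3 ≤ (F.neighborSet a).ncard) :
    (f a).2.1 = 0 := by
  by_contra h0
  obtain ⟨u, v, w, hu, hv, hw, h1, h2, h3⟩ := three_nb h
  have e1 := adj_pos h0 (f.toHom.map_adj hu)
  have e2 := adj_pos h0 (f.toHom.map_adj hv)
  have e3 := adj_pos h0 (f.toHom.map_adj hw)
  have i1 : f.toHom u ≠ f.toHom v := fun e => h1 (f.injective e)
  have i2 : f.toHom u ≠ f.toHom w := fun e => h2 (f.injective e)
  have i3 : f.toHom v ≠ f.toHom w := fun e => h3 (f.injective e)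
  rcases e1 with e1 | e1 <;> rcases e2 with e2 | e2 <;> rcases e3 with e3 | e3
  · exact i1 (e1.trans e2.symm)
  · exact i1 (e1.trans e2.symm)
  · exact i2 (e1.trans e3.symm)
  · exact i3 (e2.trans e3.symm)
  · exact i3 (e2.trans e3.symm)
  · exact i2 (e1.trans e3.symm)
  · exact i1 (e1.trans e2.symm)
  · exact i1 (e1.trans e2.symm)

lemma extra (hℓ : 1 ≤ ℓ) (f : Copy F (G.gr ℓ)) {a : W} (h : 3 ≤ (F.neighborSet a).ncard) (c : W) :
    ∃ u, F.Adj a u ∧ u ≠ c ∧ (f u).2.1 = 0 ∧ G.N (f a).1 (f u).1 := by
  have h0 := level_zero f h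
  obtain ⟨u, v, w, hu, hv, hw, h1, h2, h3⟩ := three_nb h
  have i1 : f u ≠ f v := fun e => h1 (f.injective e)
  have i2 : f u ≠ f w := fun e => h2 (f.injective e)
  have i3 : f v ≠ f w := fun e => h3 (f.injective e)
  by_contra hcon
  push Not at hcon
  have key : ∀ x, F.Adj a x → x = c ∨ f x = up G (f a) := by
    intro x hx
    by_cases hxc : x = c
    · exact Or.inl hxc
    · right
      rcases adj_zero hℓ h0 (f.toHom.map_adj hx) with e | ⟨e1, e2⟩
      · exact e
      · exact absurd e2 (hcon x hx hxc e1)
  rcases key u hu with e1 | e1 <;> rcases key v hv with e2 | e2 <;> rcases key w hw with e3 | e3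
  · exact h1 (e1.trans e2.symm)
  · exact h1 (e1.trans e2.symm)
  · exact h2 (e1.trans e3.symm)
  · exact i3 (e2.trans e3.symm)
  · exact h3 (e2.trans e3.symm)
  · exact i2 (e1.trans e3.symm)
  · exact i1 (e1.trans e2.symm)
  · exact i1 (e1.trans e2.symm)

/-- Two vertices of degree at least three at distance at least six do not fit into gadgets with at
most eight ports. -/
theorem free_of_blocks [Finite P] (a b : W) (ha : 3 ≤ (F.neighborSet a).ncard)
    (hb : 3 ≤ (F.neighborSet b).ncard) (hr : F.Reachable a b) (hd : 6 ≤ F.dist a b)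
    (hℓ : F.dist a b ≤ ℓ) (blk : P → B) (hN : ∀ p q, G.N p q → blk p = blk q)
    (hcard : ∀ g, {p | blk p = g}.ncard ≤ 8) : F.Free (G.gr ℓ) := by
  classical
  rintro ⟨f⟩
  obtain ⟨w, hw⟩ := hr.exists_walk_length_eq_dist
  have hpath : w.IsPath := w.isPath_of_length_eq_dist hw
  have hinj : ∀ i j, i ≤ w.length → j ≤ w.length → w.getVert i = w.getVert j → i = j :=
    fun i j hi hj h => hpath.getVert_injOn hi hj h
  have hadj : ∀ i, i < w.length → (G.gr ℓ).Adj (f (w.getVert i)) (f (w.getVert (i + 1))) :=
    fun i hi => f.toHom.map_adj (w.adj_getVert_succ hi)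
  have hb0 : (f (w.getVert w.length)).2.1 = 0 := by
    rw [w.getVert_length]; exact level_zero f hb
  have ha0 : (f (w.getVert 0)).2.1 = 0 := by
    rw [w.getVert_zero]; exact level_zero f ha
  have hℓ1 : 1 ≤ ℓ := by omega
  -- all vertices of the path have level zero
  have hstep : ∀ i, i < w.length → (f (w.getVert i)).2.1 = 0 →
      (f (w.getVert (i + 1))).2.1 = 0 := by
    intro i hi h0
    by_contra h1
    set p := (f (w.getVert i)).1 with hp
    have hfi : f (w.getVert i) = (p, ⟨0, by omega⟩) := Prod.ext rfl (Fin.ext h0)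
    have hfi1 : f (w.getVert (i + 1)) = (p, ⟨1, by omega⟩) := by
      rcases adj_zero hℓ1 h0 (hadj i hi) with e | ⟨e, -⟩
      · rw [e, up, dif_neg (by omega)]
        exact Prod.ext rfl (Fin.ext (by simp [h0]))
      · exact absurd e h1
    have hk : ∀ k (h : i + k + 1 ≤ w.length), f (w.getVert (i + k)) = (p, ⟨k, by omega⟩) ∧
        f (w.getVert (i + k + 1)) = (p, ⟨k + 1, by omega⟩) := by
      intro k
      induction k with
      | zero => intro h; exact ⟨hfi, hfi1⟩
      | succ k ih =>
        intro h
        obtain ⟨h2, h3⟩ := ih (by omega)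
        refine ⟨h3, ?_⟩
        have h4 := hadj (i + k + 1) (by omega)
        rw [h3] at h4
        have h5 : ((p, (⟨k + 1, by omega⟩ : Fin (ℓ + 1))) : P × Fin (ℓ + 1)).2.1 ≠ 0 := by simp
        rcases adj_pos h5 h4 with e | e
        · exfalso
          have h6 : f (w.getVert (i + k + 1 + 1)) = f (w.getVert (i + k)) := by
            rw [e, h2, low]
            exact Prod.ext rfl (Fin.ext (by simp))
          have h7 := hinj _ _ (by omega) (by omega) (f.injective h6)
          omega
        · rw [show i + (k + 1) + 1 = i + k + 1 + 1 by ring, e, up, dif_neg (by simp; omega)]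
    have h8 := (hk (w.length - i - 1) (by omega)).2
    have h9 : w.getVert (i + (w.length - i - 1) + 1) = w.getVert w.length := by
      congr 1; omega
    rw [h9] at h8
    rw [h8] at hb0
    simp at hb0
  have hlev : ∀ i, i ≤ w.length → (f (w.getVert i)).2.1 = 0 := by
    intro i
    induction i with
    | zero => intro _; exact ha0
    | succ i ih => intro hi; exact hstep i (by omega) (ih (by omega))
  have hblk : ∀ i, i ≤ w.length → blk (f (w.getVert i)).1 = blk (f a).1 := by
    intro i
    induction i with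
    | zero => intro _; rw [w.getVert_zero]
    | succ i ih =>
      intro hi
      rw [← ih (by omega)]
      rcases adj_zero hℓ1 (hlev i (by omega)) (hadj i (by omega)) with e | ⟨-, e⟩
      · exfalso
        have h1 := hlev (i + 1) hi
        rw [e, up, dif_neg (by rw [hlev i (by omega)]; omega)] at h1
        simp at h1
      · exact (hN _ _ e).symm
  -- the extra neighbours
  obtain ⟨u, hu1, hu2, hu3, hu4⟩ := extra hℓ1 f ha (w.getVert 1)
  obtain ⟨v, hv1, hv2, hv3, hv4⟩ := extra hℓ1 f hb (w.getVert (w.length - 1))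
  have hun : ∀ i, i ≤ w.length → w.getVert i ≠ u := by
    rintro i hi rfl
    have h1 := dist_le (Walk.cons hu1 (w.drop i))
    rw [Walk.length_cons, Walk.drop_length] at h1
    have hi1 : i ≤ 1 := by omega
    interval_cases i
    · rw [w.getVert_zero] at hu1
      exact F.irrefl hu1
    · exact hu2 rfl
  have hvn : ∀ i, i ≤ w.length → w.getVert i ≠ v := by
    rintro i hi rfl
    have h1 := dist_le ((w.take i).concat hv1.symm)
    rw [Walk.length_concat, Walk.take_length] at h1
    have hi1 : w.length - 1 ≤ i := by omega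
    rcases (by omega : i = w.length - 1 ∨ i = w.length) with rfl | rfl
    · exact hv2 rfl
    · rw [w.getVert_length] at hv1
      exact F.irrefl hv1
  have huv : u ≠ v := by
    rintro rfl
    have h1 := dist_le (Walk.cons hu1 (Walk.cons hv1.symm Walk.nil))
    simp only [Walk.length_cons, Walk.length_nil] at h1
    omega
  -- counting
  let T : Finset W := insert u (insert v ((Finset.range (w.length + 1)).image w.getVert))
  have hT : T.card = w.length + 3 := by
    rw [Finset.card_insert_of_notMem, Finset.card_insert_of_notMem, Finset.card_image_of_injOn,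
      Finset.card_range]
    · intro i hi j hj h
      simp only [Finset.coe_range, Set.mem_Iio] at hi hj
      exact hinj i j (by omega) (by omega) h
    · simp only [Finset.mem_image, Finset.mem_range, not_exists, not_and]
      intro i hi
      exact hvn i (by omega)
    · simp only [Finset.mem_insert, Finset.mem_image, Finset.mem_range, not_or, not_exists,
        not_and]
      exact ⟨huv, fun i hi => hun i (by omega)⟩
  have hTl : ∀ x ∈ T, (f x).2.1 = 0 ∧ blk (f x).1 = blk (f a).1 := by
    intro x hx
    simp only [T, Finset.mem_insert, Finset.mem_image, Finset.mem_range] at hx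
    rcases hx with rfl | rfl | ⟨i, hi, rfl⟩
    · exact ⟨hu3, (hN _ _ hu4).symm⟩
    · refine ⟨hv3, (hN _ _ hv4).symm.trans ?_⟩
      have := hblk w.length le_rfl
      rwa [w.getVert_length] at this
    · exact ⟨hlev i (by omega), hblk i (by omega)⟩
  have hinjT : Set.InjOn (fun x => (f x).1) T := by
    intro x hx y hy hxy
    apply f.injective
    exact Prod.ext hxy (Fin.ext ((hTl x hx).1.trans (hTl y hy).1.symm))
  have h9 : (T.image fun x => (f x).1).card ≤ 8 := by
    rw [← Set.ncard_coe_finset]
    refine (Set.ncard_le_ncard ?_ (Set.toFinite _)).trans (hcard (blk (f a).1))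
    intro p hp
    simp only [Finset.coe_image, Set.mem_image, Finset.mem_coe] at hp
    obtain ⟨x, hx, rfl⟩ := hp
    exact (hTl x hx).2
  rw [Finset.card_image_of_injOn hinjT, hT] at h9
  omega

end Pool.Agent.Lib.MP_2e830d_lc
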