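import Pool.Agent.Lib.MP_2e830d_lc.Free

set_option autoImplicit false

/-!
# The gadgets with eight ports
-/

namespace Pool.Agent.Lib.MP_2e830d_lc

open SimpleGraph

/-- the edges of a gadget -/
def bE (i j : Fin 8) : Bool :=
  (i.1, j.1) ∈ [(0, 1), (1, 2), (2, 3), (3, 4), (4, 5), (0, 5), (6, 7)] ||
    (j.1, i.1) ∈ [(0, 1), (1, 2), (2, 3), (3, 4), (4, 5), (0, 5), (6, 7)]

/-- the additional edges of an allowed gadget -/
def xE (i j : Fin 8) : Bool :=
  (i.1, j.1) ∈ [(5, 6), (0, 7)] || (j.1, i.1) ∈ [(5, 6), (0, 7)]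

/-- the partner port -/
def pn : Fin 8 → Fin 8 := ![5, 4, 3, 2, 1, 0, 7, 6]

/-- The data: blocks, the right neighbour in the ring, the next block on the root curve, the next
block on the tip curve, and the allowed blocks. -/
structure Dat (B : Type*) where
  ρ : Equiv.Perm B
  rt : Equiv.Perm B
  tp : Equiv.Perm B
  al : B → Prop

variable {B : Type*}

/-- the block of the partner port -/
def Dat.pp (D : Dat B) : Fin 8 → Equiv.Perm B :=
  ![D.ρ⁻¹, D.ρ⁻¹, D.rt⁻¹, D.rt, D.ρ, D.ρ, D.tp⁻¹, D.tp]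

lemma pn_pn : ∀ i, pn (pn i) = i := by decide

lemma pn_ne : ∀ i, pn i ≠ i := by decide

lemma Dat.pp_pn (D : Dat B) (i : Fin 8) (g : B) : D.pp (pn i) (D.pp i g) = g := by
  fin_cases i <;> simp [Dat.pp, pn]

/-- the port graph -/
def Dat.pg (D : Dat B) : PG (B × Fin 8) where
  π p := (D.pp p.2 p.1, pn p.2)
  N p q := p.1 = q.1 ∧ (bE p.2 q.2 ∨ (D.al p.1 ∧ xE p.2 q.2))
  inv p := Prod.ext (D.pp_pn p.2 p.1) (pn_pn p.2)
  fp p h := pn_ne p.2 (congrArg Prod.snd h)
  sym p q := by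
    rintro ⟨h1, h2⟩
    have hb : ∀ i j, bE i j = bE j i := by decide
    have hx : ∀ i j, xE i j = xE j i := by decide
    exact ⟨h1.symm, by rw [hb, hx, ← h1]; exact h2⟩
  irr p := by
    rintro ⟨-, h2⟩
    have hb : ∀ i, bE i i = false := by decide
    have hx : ∀ i, xE i i = false := by decide
    simp [hb, hx] at h2

/-- Soundness. -/
theorem Dat.sound (D : Dat B) (μ : B × Fin 8 → B × Fin 8) (hN : ∀ p, D.pg.N p (μ p))
    (hμ : ∀ p, μ (μ p) = p)
    (hc : ∀ U : Set (B × Fin 8), U.Nonempty → (∀ p ∈ U, D.pg.π p ∈ U) → (∀ p ∈ U, μ p ∈ U) →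
      U = Set.univ) :
    ∃ on : B → Prop, (∀ g, on g ∨ on (D.ρ g)) ∧ (∀ g, D.ρ g = D.rt g → ¬ (on g ∧ on (D.ρ g))) ∧
      ∀ S : Set B, S.Nonempty → (∀ g ∈ S, D.tp g ∈ S) → (∀ g ∈ S, D.tp⁻¹ g ∈ S) →
        ∃ g ∈ S, D.al g ∧ on g := by
  let m : B → Fin 8 → Fin 8 := fun g i => (μ (g, i)).2
  have hm : ∀ g i, μ (g, i) = (g, m g i) := fun g i => Prod.ext (hN (g, i)).1.symm rfl
  have hmm : ∀ g i, m g (m g i) = i := by
    intro g i
    have h := hμ (g, i)
    rw [hm, hm] at h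
    exact congrArg Prod.snd h
  have hE : ∀ g i, bE i (m g i) ∨ (D.al g ∧ xE i (m g i)) := fun g i => (hN (g, i)).2
  have hE' : ∀ g i, (bE i (m g i) || xE i (m g i)) = true := by
    intro g i
    rcases hE g i with h | ⟨-, h⟩ <;> simp [h]
  have n1 : ∀ j, (bE 1 j || xE 1 j) = true → j = 0 ∨ j = 2 := by decide
  have n2 : ∀ j, (bE 2 j || xE 2 j) = true → j = 1 ∨ j = 3 := by decide
  have n3 : ∀ j, (bE 3 j || xE 3 j) = true → j = 2 ∨ j = 4 := by decide
  have n4 : ∀ j, (bE 4 j || xE 4 j) = true → j = 3 ∨ j = 5 := by decide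
  have n7 : ∀ j, (bE 7 j) = true → j = 6 := by decide
  have x7 : ∀ j, (xE 7 j) = true → j = 0 := by decide
  have hinj : ∀ g i j, m g i = j → m g j = i := by
    intro g i j h; rw [← h, hmm]
  have off : ∀ g, m g 1 ≠ 2 → m g 0 = 1 ∧ m g 4 = 5 := by
    intro g h
    have h1 : m g 1 = 0 := (n1 _ (hE' g 1)).resolve_right h
    have h2 : m g 2 = 3 := by
      rcases n2 _ (hE' g 2) with e | e
      · exact absurd (hinj g 2 1 e) h
      · exact e
    have h3 : m g 3 = 2 := hinj g 2 3 h2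
    have h4 : m g 4 = 5 := by
      rcases n4 _ (hE' g 4) with e | e
      · have := hinj g 4 3 e
        rw [h3] at this
        exact absurd this (by decide)
      · exact e
    exact ⟨hinj g 1 0 h1, h4⟩
  have hon : ∀ g, m g 1 = 2 → m g 3 = 4 := by
    intro g h
    rcases n3 _ (hE' g 3) with e | e
    · have h1 := hinj g 3 2 e
      have h2 := hinj g 1 2 h
      rw [h1] at h2
      exact absurd h2 (by decide)
    · exact e
  have tip : ∀ g, m g 6 ≠ 7 → D.al g ∧ m g 1 = 2 := by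
    intro g h
    have h7 : m g 7 ≠ 6 := fun e => h (hinj g 7 6 e)
    rcases hE g 7 with e | ⟨e1, e2⟩
    · exact absurd (n7 _ e) h7
    · have h0 := x7 _ e2
      have h1 := hinj g 7 0 h0
      refine ⟨e1, ?_⟩
      rcases n1 _ (hE' g 1) with e | e
      · have h2 := hinj g 1 0 e
        rw [h1] at h2
        exact absurd h2 (by decide)
      · exact e
  refine ⟨fun g => m g 1 = 2, ?_, ?_, ?_⟩
  · intro g
    by_contra hcon
    push Not at hcon
    obtain ⟨-, h1⟩ := off g hcon.1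
    obtain ⟨h2, -⟩ := off _ hcon.2
    have h1' := hinj g 4 5 h1
    have h2' := hinj _ 0 1 h2
    have h3 := hc {(g, 4), (g, 5), (D.ρ g, 0), (D.ρ g, 1)} ⟨(g, 4), Or.inl rfl⟩ (by
      rintro p (rfl | rfl | rfl | rfl)
      · change (D.ρ g, (1 : Fin 8)) ∈ _
        simp
      · change (D.ρ g, (0 : Fin 8)) ∈ _
        simp
      · change (D.ρ⁻¹ (D.ρ g), (5 : Fin 8)) ∈ _
        simp
      · change (D.ρ⁻¹ (D.ρ g), (4 : Fin 8)) ∈ _
        simp) (by
      rintro p (rfl | rfl | rfl | rfl)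
      · rw [hm, h1]; simp
      · rw [hm, h1']; simp
      · rw [hm, h2]; simp
      · rw [hm, h2']; simp)
    have h4 : (g, (2 : Fin 8)) ∈ ({(g, 4), (g, 5), (D.ρ g, 0), (D.ρ g, 1)} : Set (B × Fin 8)) := by
      rw [h3]; trivial
    simp at h4
  · rintro g hg ⟨h1, h2⟩
    have h3 := hon g h1
    have h3' := hinj g 3 4 h3
    have h2' := hinj _ 1 2 h2
    have h4 := hc {(g, 3), (g, 4), (D.ρ g, 1), (D.ρ g, 2)} ⟨(g, 3), Or.inl rfl⟩ (by
      rintro p (rfl | rfl | rfl | rfl)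
      · change (D.rt g, (2 : Fin 8)) ∈ _
        rw [← hg]; simp
      · change (D.ρ g, (1 : Fin 8)) ∈ _
        simp
      · change (D.ρ⁻¹ (D.ρ g), (4 : Fin 8)) ∈ _
        simp
      · change (D.rt⁻¹ (D.ρ g), (3 : Fin 8)) ∈ _
        rw [hg]; simp) (by
      rintro p (rfl | rfl | rfl | rfl)
      · rw [hm, h3]; simp
      · rw [hm, h3']; simp
      · rw [hm, h2]; simp
      · rw [hm, h2']; simp)
    have h5 : (g, (0 : Fin 8)) ∈ ({(g, 3), (g, 4), (D.ρ g, 1), (D.ρ g, 2)} : Set (B × Fin 8)) := by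
      rw [h4]; trivial
    simp at h5
  · intro S hS hS1 hS2
    by_contra hcon
    push Not at hcon
    have h67 : ∀ g ∈ S, m g 6 = 7 := by
      intro g hg
      by_contra h
      obtain ⟨h1, h2⟩ := tip g h
      exact hcon g hg h1 h2
    obtain ⟨g₀, hg₀⟩ := hS
    have h3 := hc {p | p.1 ∈ S ∧ (p.2 = 6 ∨ p.2 = 7)} ⟨(g₀, 6), hg₀, Or.inl rfl⟩ (by
      rintro ⟨g, i⟩ ⟨hg, rfl | rfl⟩
      · exact ⟨hS2 g hg, Or.inr rfl⟩
      · exact ⟨hS1 g hg, Or.inl rfl⟩) (by
      rintro ⟨g, i⟩ ⟨hg, rfl | rfl⟩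
      · rw [hm, h67 g hg]; exact ⟨hg, Or.inr rfl⟩
      · rw [hm, hinj g 6 7 (h67 g hg)]; exact ⟨hg, Or.inl rfl⟩)
    have h4 : (g₀, (0 : Fin 8)) ∈ {p : B × Fin 8 | p.1 ∈ S ∧ (p.2 = 6 ∨ p.2 = 7)} := by
      rw [h3]; trivial
    have h5 := h4.2
    simp at h5

/-- the three matchings of a gadget -/
def mt (on tip : Bool) : Fin 8 → Fin 8 :=
  if tip then ![7, 2, 1, 4, 3, 6, 5, 0]
  else if on then ![5, 2, 1, 4, 3, 0, 7, 6] else ![1, 0, 3, 2, 5, 4, 7, 6]

/-- the orientation -/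
def od (i : Fin 8) : Bool := i.1 % 2 = 1

/-- Completeness. -/
theorem Dat.complete (D : Dat B) (on tip : B → Bool) (hon : ∀ g, on (D.ρ g) = !on g)
    (htip : ∀ g, tip g = true → on g = true ∧ D.al g)
    (hrt : ∀ S : Set B, S.Nonempty → (∀ g ∈ S, D.rt g ∈ S) → S = Set.univ)
    (ht1 : ∀ g, ∃ n : ℕ, tip ((D.tp ^ n) g) = true)
    (ht2 : ∀ g (n : ℕ), tip g = true → tip ((D.tp ^ n) g) = true → (D.tp ^ n) g = g)
    (ht3 : ∀ g, ∃ n : ℕ, 0 < n ∧ (D.tp ^ n) g = g) :
    ∃ (μ : B × Fin 8 → B × Fin 8) (o : B × Fin 8 → Bool), (∀ p, D.pg.N p (μ p)) ∧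
      (∀ p, μ (μ p) = p) ∧ (∀ p, o (D.pg.π p) = !o p) ∧ (∀ p, o (μ p) = !o p) ∧
      ∀ U : Set (B × Fin 8), U.Nonempty → (∀ p ∈ U, D.pg.π p ∈ U) → (∀ p ∈ U, μ p ∈ U) →
        U = Set.univ := by
  have m1 : ∀ a b i, (bE i (mt a b i) || (b && xE i (mt a b i))) = true := by decide
  have m2 : ∀ a b i, mt a b (mt a b i) = i := by decide
  have m3 : ∀ a b i, od (mt a b i) = !od i := by decide
  have m4 : ∀ i, od (pn i) = !od i := by decide
  let μ : B × Fin 8 → B × Fin 8 := fun p => (p.1, mt (on p.1) (tip p.1) p.2)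
  have hμ2 : ∀ p, μ (μ p) = p := fun p => Prod.ext rfl (m2 _ _ _)
  refine ⟨μ, fun p => od p.2, ?_, hμ2, fun p => m4 p.2, fun p => m3 _ _ _, ?_⟩
  · rintro ⟨g, i⟩
    refine ⟨rfl, ?_⟩
    have h := m1 (on g) (tip g) i
    rw [Bool.or_eq_true, Bool.and_eq_true] at h
    rcases h with h | ⟨h1, h2⟩
    · exact Or.inl h
    · exact Or.inr ⟨(htip g h1).2, h2⟩
  · intro U hU hπ hμ
    have πiff : ∀ p, p ∈ U ↔ D.pg.π p ∈ U := by
      intro p
      refine ⟨hπ p, fun h => ?_⟩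
      have := hπ _ h
      rwa [D.pg.inv] at this
    have μiff : ∀ p, p ∈ U ↔ μ p ∈ U := by
      intro p
      refine ⟨hμ p, fun h => ?_⟩
      have := hμ _ h
      rwa [hμ2] at this
    -- the relations
    have P3 : ∀ g, (g, (3 : Fin 8)) ∈ U ↔ (D.rt g, (2 : Fin 8)) ∈ U := fun g => πiff (g, 3)
    have P5 : ∀ g, (g, (5 : Fin 8)) ∈ U ↔ (D.ρ g, (0 : Fin 8)) ∈ U := fun g => πiff (g, 5)
    have P4 : ∀ g, (g, (4 : Fin 8)) ∈ U ↔ (D.ρ g, (1 : Fin 8)) ∈ U := fun g => πiff (g, 4)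
    have P7 : ∀ g, (g, (7 : Fin 8)) ∈ U ↔ (D.tp g, (6 : Fin 8)) ∈ U := fun g => πiff (g, 7)
    have M : ∀ g i, (g, i) ∈ U ↔ (g, mt (on g) (tip g) i) ∈ U := fun g i => μiff (g, i)
    have q1 : ∀ a b, (a = true ∨ b = true) → mt a b 1 = 2 ∧ mt a b 3 = 4 := by decide
    have q2 : mt false false 0 = 1 ∧ mt false false 2 = 3 ∧ mt false false 4 = 5 := by decide
    have q3 : ∀ a, mt a false 6 = 7 := by decide
    have q4 : mt true false 0 = 5 := by decide
    have q5 : ∀ a, mt a true 0 = 7 ∧ mt a true 5 = 6 := by decide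
    have offtip : ∀ g, on g = false → tip g = false := by
      intro g h
      by_contra h'
      have := (htip g (by simpa using h')).1
      rw [h] at this
      exact absurd this (by decide)
    have O01 : ∀ g, on g = false → ((g, (0 : Fin 8)) ∈ U ↔ (g, (1 : Fin 8)) ∈ U) := by
      intro g h
      have := M g 0
      rwa [h, offtip g h, q2.1] at this
    have O23 : ∀ g, on g = false → ((g, (2 : Fin 8)) ∈ U ↔ (g, (3 : Fin 8)) ∈ U) := by
      intro g h
      have := M g 2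
      rwa [h, offtip g h, q2.2.1] at this
    have O45 : ∀ g, on g = false → ((g, (4 : Fin 8)) ∈ U ↔ (g, (5 : Fin 8)) ∈ U) := by
      intro g h
      have := M g 4
      rwa [h, offtip g h, q2.2.2] at this
    have N12 : ∀ g, on g = true → ((g, (1 : Fin 8)) ∈ U ↔ (g, (2 : Fin 8)) ∈ U) := by
      intro g h
      have := M g 1
      rwa [(q1 (on g) (tip g) (Or.inl h)).1] at this
    have N34 : ∀ g, on g = true → ((g, (3 : Fin 8)) ∈ U ↔ (g, (4 : Fin 8)) ∈ U) := by
      intro g h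
      have := M g 3
      rwa [(q1 (on g) (tip g) (Or.inl h)).2] at this
    -- the tip curve
    have curve : ∀ g, ((g, (6 : Fin 8)) ∈ U ↔ (g, (7 : Fin 8)) ∈ U) := by
      intro g
      by_cases hg : tip g = true
      · classical
        let n := Nat.find (ht3 g)
        obtain ⟨hn0, hn1⟩ : 0 < n ∧ (D.tp ^ n) g = g := Nat.find_spec (ht3 g)
        have hmin : ∀ k, 0 < k → k < n → (D.tp ^ k) g ≠ g := by
          intro k hk0 hkn h
          exact Nat.find_min (ht3 g) hkn ⟨hk0, h⟩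
        have hk : ∀ k, k + 1 ≤ n →
            (((D.tp ^ (k + 1)) g, (6 : Fin 8)) ∈ U ↔ (g, (7 : Fin 8)) ∈ U) := by
          intro k
          induction k with
          | zero =>
            intro _
            rw [zero_add, pow_one]
            exact (P7 g).symm
          | succ k ih =>
            intro h
            rw [← ih (by omega)]
            have h1 : tip ((D.tp ^ (k + 1)) g) = false := by
              by_contra h2
              exact hmin (k + 1) (by omega) (by omega) (ht2 g _ hg (by simpa using h2))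
            have h3 := M ((D.tp ^ (k + 1)) g) 6
            rw [h1, q3] at h3
            rw [h3, P7, ← Equiv.Perm.mul_apply, ← pow_succ']
        have := hk (n - 1) (by omega)
        rw [show n - 1 + 1 = n by omega, hn1] at this
        exact this
      · have h1 : tip g = false := by simpa using hg
        have h3 := M g 6
        rwa [h1, q3] at h3
    have N05 : ∀ g, on g = true → ((g, (0 : Fin 8)) ∈ U ↔ (g, (5 : Fin 8)) ∈ U) := by
      intro g h
      by_cases hg : tip g = true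
      · have h1 := M g 0
        have h2 := M g 5
        rw [hg, (q5 _).1] at h1
        rw [hg, (q5 _).2] at h2
        rw [h1, h2, curve g]
      · have h1 : tip g = false := by simpa using hg
        have h2 := M g 0
        rwa [h, h1, q4] at h2
    -- all six ports of a block that is on
    have hρ : ∀ g, D.ρ (D.ρ⁻¹ g) = g := fun g => D.ρ.apply_symm_apply g
    have onρ' : ∀ g, on (D.ρ⁻¹ g) = !on g := by
      intro g
      have := hon (D.ρ⁻¹ g)
      rw [hρ] at this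
      rw [this, Bool.not_not]
    have A10 : ∀ g, on g = true → ((g, (1 : Fin 8)) ∈ U ↔ (g, (0 : Fin 8)) ∈ U) := by
      intro g h
      have h1 := P4 (D.ρ⁻¹ g)
      have h2 := P5 (D.ρ⁻¹ g)
      rw [hρ] at h1 h2
      rw [← h1, ← h2]
      exact O45 _ (by rw [onρ', h]; rfl)
    have A54 : ∀ g, on g = true → ((g, (5 : Fin 8)) ∈ U ↔ (g, (4 : Fin 8)) ∈ U) := by
      intro g h
      rw [P5, P4]
      exact O01 _ (by rw [hon, h]; rfl)
    have A23 : ∀ g, ((g, (2 : Fin 8)) ∈ U ↔ (g, (3 : Fin 8)) ∈ U) := by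
      intro g
      by_cases h : on g = true
      · rw [← N12 g h, A10 g h, N05 g h, A54 g h, N34 g h]
      · exact O23 g (by simpa using h)
    have hrt2 : ∀ g, ((g, (2 : Fin 8)) ∈ U ↔ (D.rt g, (2 : Fin 8)) ∈ U) := by
      intro g; rw [A23, P3]
    -- everything is equivalent
    obtain ⟨⟨g₀, i₀⟩, hp₀⟩ := hU
    have hall2 : ∀ g, ((g, (2 : Fin 8)) ∈ U ↔ (g₀, (2 : Fin 8)) ∈ U) := by
      intro g
      have h1 := hrt {g | ((g, (2 : Fin 8)) ∈ U ↔ (g₀, (2 : Fin 8)) ∈ U)} ⟨g₀, Iff.rfl⟩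
        (fun g hg => by
          change ((D.rt g, (2 : Fin 8)) ∈ U ↔ (g₀, (2 : Fin 8)) ∈ U)
          rw [← hrt2]; exact hg)
      have h2 : g ∈ {g | ((g, (2 : Fin 8)) ∈ U ↔ (g₀, (2 : Fin 8)) ∈ U)} := by rw [h1]; trivial
      exact h2
    have hon5 : ∀ g, on g = true → ∀ i : Fin 8, i.1 < 6 →
        ((g, i) ∈ U ↔ (g₀, (2 : Fin 8)) ∈ U) := by
      intro g h i hi
      have e2 := hall2 g
      have e1 := N12 g h
      have e0 := A10 g h
      have e5 := N05 g h
      have e4 := A54 g h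
      have e3 := N34 g h
      have : i = 0 ∨ i = 1 ∨ i = 2 ∨ i = 3 ∨ i = 4 ∨ i = 5 := by
        revert i; decide
      rcases this with rfl | rfl | rfl | rfl | rfl | rfl
      · rw [← e0, e1, e2]
      · rw [e1, e2]
      · exact e2
      · rw [e3, ← e4, ← e5, ← e0, e1, e2]
      · rw [← e4, ← e5, ← e0, e1, e2]
      · rw [← e5, ← e0, e1, e2]
    have h6 : ∀ g (n : ℕ), ((g, (6 : Fin 8)) ∈ U ↔ ((D.tp ^ n) g, (6 : Fin 8)) ∈ U) := by
      intro g n
      induction n with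
      | zero => rfl
      | succ n ih =>
        rw [ih, curve, P7, ← Equiv.Perm.mul_apply, ← pow_succ']
    have hall : ∀ g i, ((g, i) ∈ U ↔ (g₀, (2 : Fin 8)) ∈ U) := by
      intro g i
      have h7 : ((g, (6 : Fin 8)) ∈ U ↔ (g₀, (2 : Fin 8)) ∈ U) := by
        obtain ⟨n, hn⟩ := ht1 g
        rw [h6 g n]
        have h1 := M ((D.tp ^ n) g) 5
        rw [hn, (q5 _).2] at h1
        rw [← h1]
        exact hon5 _ (htip _ hn).1 5 (by decide)
      by_cases h : on g = true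
      · by_cases hi : i.1 < 6
        · exact hon5 g h i hi
        · have : i = 6 ∨ i = 7 := by revert i; decide
          rcases this with rfl | rfl
          · exact h7
          · rw [← curve]; exact h7
      · have h' : on g = false := by simpa using h
        have h0 : ((g, (0 : Fin 8)) ∈ U ↔ (g₀, (2 : Fin 8)) ∈ U) := by
          have h1 := P5 (D.ρ⁻¹ g)
          rw [hρ] at h1
          rw [← h1]
          exact hon5 _ (by rw [onρ', h']; rfl) 5 (by decide)
        have h4 : ((g, (4 : Fin 8)) ∈ U ↔ (g₀, (2 : Fin 8)) ∈ U) := by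
          rw [P4]
          exact hon5 _ (by rw [hon, h']; rfl) 1 (by decide)
        have : i = 0 ∨ i = 1 ∨ i = 2 ∨ i = 3 ∨ i = 4 ∨ i = 5 ∨ i = 6 ∨ i = 7 := by
          revert i; decide
        rcases this with rfl | rfl | rfl | rfl | rfl | rfl | rfl | rfl
        · exact h0
        · rw [← O01 g h']; exact h0
        · exact hall2 g
        · rw [← O23 g h']; exact hall2 g
        · exact h4
        · rw [← O45 g h']; exact h4
        · exact h7
        · rw [← curve]; exact h7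
    have hg₀ : (g₀, (2 : Fin 8)) ∈ U := (hall g₀ i₀).1 hp₀
    ext ⟨g, i⟩
    simp only [Set.mem_univ, iff_true]
    exact (hall g i).2 hg₀

end Pool.Agent.Lib.MP_2e830d_lc
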