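import Mathlib

set_option autoImplicit false

/-!
# Hamiltonian cycles as cyclic permutations
-/

namespace Pool.Agent.Lib.MP_2e830d_lc

open SimpleGraph Equiv.Perm

variable {V : Type*}

/-- A closed set of a cyclic permutation is everything. -/
lemma closed_eq_univ [Finite V] {σ : Equiv.Perm V} (h : ∀ x y, σ.SameCycle x y) {U : Set V}
    (hne : U.Nonempty) (hU : ∀ v ∈ U, σ v ∈ U) : U = Set.univ := by
  obtain ⟨x, hx⟩ := hne
  ext y
  simp only [Set.mem_univ, iff_true]
  obtain ⟨n, -, rfl⟩ := (h x y).exists_pow_eq' 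
  clear * - hx hU
  induction n with
  | zero => simpa using hx
  | succ n ih => rw [pow_succ', Equiv.Perm.mul_apply]; exact hU _ ih

lemma isHamiltonian_iff [Fintype V] [DecidableEq V] (G : SimpleGraph V)
    (h3 : 3 ≤ Fintype.card V) :
    G.IsHamiltonian ↔ (cycleGraph (Fintype.card V)).IsContained G := by
  rw [cycleGraph_isContained_iff (by omega)]
  constructor
  · intro h
    obtain ⟨a, p, hp⟩ := h (by omega)
    exact ⟨a, p, Walk.isHamiltonianCycle_iff_isCycle_and_length_eq.1 hp⟩
  · rintro ⟨a, p, hp⟩ -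
    exact ⟨a, p, Walk.isHamiltonianCycle_iff_isCycle_and_length_eq.2 hp⟩

/-- A Hamiltonian graph has a cyclic permutation along its edges. -/
lemma exists_perm_of_ham [Fintype V] [DecidableEq V] {G : SimpleGraph V}
    (h3 : 3 ≤ Fintype.card V) (h : G.IsHamiltonian) :
    ∃ σ : Equiv.Perm V, (∀ v, G.Adj v (σ v)) ∧ (∀ x y, σ.SameCycle x y) ∧
      ∀ v, σ v ≠ σ.symm v := by
  rw [isHamiltonian_iff G h3] at h
  obtain ⟨f⟩ := h
  set n := Fintype.card V with hn
  have hbij : Function.Bijective f :=
    (Fintype.bijective_iff_injective_and_card _).2 ⟨f.injective, by simp [hn]⟩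
  let e : Fin n ≃ V := Equiv.ofBijective f hbij
  have he : ∀ i, e i = f i := fun i => rfl
  have hrot : ∀ i : Fin n, (cycleGraph n).Adj i (finRotate n i) := by
    intro i
    obtain ⟨m, hm⟩ : ∃ m, n = m + 2 := ⟨n - 2, by omega⟩
    clear_value n
    subst hm
    rw [cycleGraph_adj]
    right
    rw [finRotate_apply]
    simp
  let σ : Equiv.Perm V := e.permCongrHom (finRotate n)
  have hσ : ∀ v, σ v = e (finRotate n (e.symm v)) := fun v => rfl
  have hsame : ∀ x y, σ.SameCycle x y := by
    intro x y
    have hc : (finRotate n).IsCycle := isCycle_finRotate_of_le (by omega)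
    have hs : (finRotate n).support = Finset.univ := support_finRotate_of_le (by omega)
    have h1 : (finRotate n).SameCycle (e.symm x) (e.symm y) := by
      apply hc.sameCycle
      · rw [← Equiv.Perm.mem_support, hs]; exact Finset.mem_univ _
      · rw [← Equiv.Perm.mem_support, hs]; exact Finset.mem_univ _
    obtain ⟨i, hi⟩ := h1
    refine ⟨i, ?_⟩
    have h2 : σ ^ i = e.permCongrHom (finRotate n ^ i) := (map_zpow _ _ _).symm
    rw [h2]
    change e ((finRotate n ^ i) (e.symm x)) = y
    rw [hi]
    simp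
  refine ⟨σ, ?_, hsame, ?_⟩
  · intro v
    have h1 := f.toHom.map_adj (hrot (e.symm v))
    have h2 : f.toHom (e.symm v) = v := e.apply_symm_apply v
    rw [h2] at h1
    exact h1
  · intro v hv
    have h1 : σ (σ v) = v := by rw [hv]; simp
    have h2 := closed_eq_univ hsame (U := {v, σ v}) ⟨v, by simp⟩ (by
      intro w hw
      simp only [Set.mem_insert_iff, Set.mem_singleton_iff] at hw ⊢
      rcases hw with rfl | rfl
      · exact Or.inr rfl
      · exact Or.inl h1)
    have h4 : (Finset.univ : Finset V).card ≤ 2 := by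
      have h5 : (Finset.univ : Finset V) ⊆ {v, σ v} := by
        intro w _
        have : w ∈ ({v, σ v} : Set V) := by rw [h2]; trivial
        simpa using this
      exact (Finset.card_le_card h5).trans Finset.card_le_two
    rw [Finset.card_univ] at h4
    omega

/-- A cyclic permutation along the edges gives a Hamiltonian cycle. -/
lemma ham_of_perm [Fintype V] [DecidableEq V] {G : SimpleGraph V}
    (h3 : 3 ≤ Fintype.card V) (σ : Equiv.Perm V) (hadj : ∀ v, G.Adj v (σ v))
    (hc : ∀ x y, σ.SameCycle x y) : G.IsHamiltonian := by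
  rw [isHamiltonian_iff G h3]
  have hne : Nonempty V := Fintype.card_pos_iff.1 (by omega)
  obtain ⟨v₀⟩ := hne
  have hon : σ.IsCycleOn ((Finset.univ : Finset V) : Set V) := by
    refine ⟨?_, fun x _ y _ => hc x y⟩
    rw [Finset.coe_univ]
    exact Set.bijOn_univ.2 σ.bijective
  have hkey : ∀ i j : ℕ, (σ ^ i) v₀ = (σ ^ j) v₀ ↔ i ≡ j [MOD Fintype.card V] := by
    intro i j
    rw [hon.pow_apply_eq_pow_apply (Finset.mem_univ v₀), Finset.card_univ]
  refine ⟨⟨⟨fun i => (σ ^ i.1) v₀, ?_⟩, ?_⟩⟩
  · intro i j hij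
    have main : ∀ i j : Fin (Fintype.card V), (i - j).val = 1 →
        G.Adj ((σ ^ j.1) v₀) ((σ ^ i.1) v₀) := by
      intro i j h
      have h1 : (σ ^ i.1) v₀ = σ ((σ ^ j.1) v₀) := by
        rw [← Equiv.Perm.mul_apply, ← pow_succ', hkey]
        have h2 := i.2
        have h4 := j.2
        rw [Fin.sub_def] at h
        simp only at h
        unfold Nat.ModEq
        rcases Nat.lt_or_ge i.1 j.1 with hlt | hge
        · have h5 : Fintype.card V - j.1 + i.1 < Fintype.card V := by omega
          rw [Nat.mod_eq_of_lt h5] at h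
          have h6 : j.1 + 1 = Fintype.card V := by omega
          have h7 : i.1 = 0 := by omega
          rw [h6, h7]; simp
        · have h5 : Fintype.card V - j.1 + i.1 = Fintype.card V + (i.1 - j.1) := by omega
          rw [h5, Nat.add_mod_left, Nat.mod_eq_of_lt (by omega)] at h
          congr 1
          omega
      rw [h1]
      exact hadj _
    rcases cycleGraph_adj'.1 hij with h | h
    · exact (main _ _ h).symm
    · exact main _ _ h
  · intro i j hij
    have h1 : i.1 ≡ j.1 [MOD Fintype.card V] := (hkey _ _).1 hij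
    apply Fin.ext
    have h2 := i.2
    have h4 := j.2
    unfold Nat.ModEq at h1
    rwa [Nat.mod_eq_of_lt h2, Nat.mod_eq_of_lt h4] at h1

end Pool.Agent.Lib.MP_2e830d_lc
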