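import Pool.Agent.Lib.MP_2e830d_lc.Gad
import Pool.Agent.Lib.MP_c85d9c_lc.Defs

set_option autoImplicit false

/-!
# The instance of a formula
-/

namespace Pool.Agent.Lib.MP_2e830d_lc

open SimpleGraph
open Pool.Agent.Lib.MP_c85d9c_lc (Formula Lit)

/-- Doubling a permutation. -/
def dbl {A : Type*} (τ : Equiv.Perm A) : Equiv.Perm (A × Bool) where
  toFun p := if p.2 then (τ p.1, false) else (p.1, true)
  invFun p := if p.2 then (p.1, false) else (τ.symm p.1, true)
  left_inv := by rintro ⟨a, _ | _⟩ <;> simp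
  right_inv := by rintro ⟨a, _ | _⟩ <;> simp

lemma dbl_false {A : Type*} (τ : Equiv.Perm A) (a : A) : dbl τ (a, false) = (a, true) := rfl

lemma dbl_true {A : Type*} (τ : Equiv.Perm A) (a : A) : dbl τ (a, true) = (τ a, false) := rfl

lemma dbl_inv_fst {A : Type*} (τ : Equiv.Perm A) (a : A) :
    (dbl τ)⁻¹ (a, false) = (τ⁻¹ a, true) := rfl

lemma dbl_inv_snd {A : Type*} (τ : Equiv.Perm A) (a : A) : (dbl τ)⁻¹ (a, true) = (a, false) := rfl

/-- next clause -/
def nxC (m n : ℕ) : Equiv.Perm (Fin (m + 1) × Fin (n + 1)) where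
  toFun p := (p.1, p.2 + 1)
  invFun p := (p.1, p.2 - 1)
  left_inv p := by simp
  right_inv p := by simp

/-- next variable -/
def nxV (m n : ℕ) : Equiv.Perm (Fin (m + 1) × Fin (n + 1)) where
  toFun p := (p.1 + 1, p.2)
  invFun p := (p.1 - 1, p.2)
  left_inv p := by simp
  right_inv p := by simp

/-- next pair -/
def nxO (m n : ℕ) : Equiv.Perm (Fin (m + 1) × Fin (n + 1)) where
  toFun p := (if p.2 = Fin.last n then p.1 + 1 else p.1, p.2 + 1)
  invFun p := (if p.2 = 0 then p.1 - 1 else p.1, p.2 - 1)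
  left_inv p := by
    have h : p.2 + 1 = 0 ↔ p.2 = Fin.last n := by
      constructor
      · intro h
        rw [eq_neg_of_add_eq_zero_left h]
        symm
        exact eq_neg_of_add_eq_zero_left (by simp)
      · intro h
        rw [h]; simp
    obtain ⟨x, c⟩ := p
    by_cases h1 : c = Fin.last n
    · subst h1
      simp
      exact (eq_neg_of_add_eq_zero_left (by simp)).symm
    · simp only [h1, if_false, h]
      simp
  right_inv p := by
    have h : p.2 - 1 = Fin.last n ↔ p.2 = 0 := by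
      constructor
      · intro h
        have h2 : p.2 = Fin.last n + 1 := by rw [← h]; simp
        rw [h2]; simp
      · intro h
        rw [h, zero_sub]
        symm
        exact eq_neg_of_add_eq_zero_left (by simp)
    obtain ⟨x, c⟩ := p
    by_cases h1 : c = 0
    · subst h1
      have : (0 : Fin (n + 1)) - 1 = Fin.last n := by
        rw [zero_sub]
        symm
        exact eq_neg_of_add_eq_zero_left (by simp)
      simp [this]
    · simp only [h1, if_false, h]
      simp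

/-- one less than the number of variables -/
def nV (φ : Formula) : ℕ := (φ.flatten.map fun l => l.2.2).sum

/-- the allowed blocks -/
def alB (φ : Formula) (x c : ℕ) (b : Bool) : Bool :=
  decide (c = 0) || decide (((false, b, x) : Lit) ∈ φ.getD (c - 1) [])

/-- The data of a formula. -/
def dat (φ : Formula) : Dat ((Fin (nV φ + 1) × Fin (φ.length + 1)) × Bool) where
  ρ := dbl (nxC _ _)
  rt := dbl (nxO _ _)
  tp := dbl (nxV _ _)
  al g := alB φ g.1.1 g.1.2 g.2 = true

lemma lt_nV {φ : Formula} {C : List Lit} {l : Lit} (hC : C ∈ φ) (hl : l ∈ C) :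
    l.2.2 < nV φ + 1 := by
  have h1 : l.2.2 ∈ φ.flatten.map fun l => l.2.2 :=
    List.mem_map.2 ⟨l, List.mem_flatten.2 ⟨C, hC, hl⟩, rfl⟩
  have := List.single_le_sum (l := φ.flatten.map fun l => l.2.2) (fun _ _ => Nat.zero_le _) _ h1
  unfold nV
  omega

/-! ### closed sets -/

open Fin.NatCast in
lemma fin_closed {n : ℕ} {S : Set (Fin (n + 1))} (h : S.Nonempty) (hS : ∀ x ∈ S, x + 1 ∈ S) :
    S = Set.univ := by
  obtain ⟨x, hx⟩ := h
  have h1 : ∀ k : ℕ, x + (k : Fin (n + 1)) ∈ S := by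
    intro k
    induction k with
    | zero => simpa using hx
    | succ k ih => rw [Nat.cast_succ, ← add_assoc]; exact hS _ ih
  ext y
  simp only [Set.mem_univ, iff_true]
  have := h1 (y - x).1
  rw [Fin.cast_val_eq_self] at this
  simpa using this

lemma odo_closed {m n : ℕ} {S : Set (Fin (m + 1) × Fin (n + 1))} (h : S.Nonempty)
    (hS : ∀ p ∈ S, nxO m n p ∈ S) : S = Set.univ := by
  obtain ⟨⟨x, c⟩, hx⟩ := h
  have step : ∀ x (i : Fin n), (x, i.castSucc) ∈ S → (x, i.succ) ∈ S := by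
    intro x i hi
    have := hS _ hi
    have h2 : nxO m n (x, i.castSucc) = (x, i.succ) := by
      change ((if i.castSucc = Fin.last n then x + 1 else x), i.castSucc + 1) = _
      rw [if_neg (Fin.castSucc_lt_last i).ne, Fin.coeSucc_eq_succ]
    rwa [h2] at this
  have last : ∀ x, (x, Fin.last n) ∈ S → (x + 1, (0 : Fin (n + 1))) ∈ S := by
    intro x hx
    have := hS _ hx
    have h2 : nxO m n (x, Fin.last n) = (x + 1, 0) := by
      change ((if Fin.last n = Fin.last n then x + 1 else x), Fin.last n + 1) = _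
      rw [if_pos rfl]; simp
    rwa [h2] at this
  have up : ∀ x, (x, (0 : Fin (n + 1))) ∈ S → ∀ c, (x, c) ∈ S := by
    intro x hx c
    induction c using Fin.induction with
    | zero => exact hx
    | succ i ih => exact step x i ih
  have down : (x, c) ∈ S → (x, Fin.last n) ∈ S := by
    induction c using Fin.reverseInduction with
    | last => exact id
    | cast i ih => exact fun h => ih (step x i h) (step x i h)
  have h0 := fin_closed (S := {x | (x, (0 : Fin (n + 1))) ∈ S}) ⟨x + 1, last x (down hx)⟩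
    (fun y hy => last y (up y hy _))
  ext ⟨y, d⟩
  simp only [Set.mem_univ, iff_true]
  apply up
  have : y ∈ {x | (x, (0 : Fin (n + 1))) ∈ S} := by rw [h0]; trivial
  exact this

lemma dbl_closed {A : Type*} {τ : Equiv.Perm A} {S : Set (A × Bool)} (hS : ∀ g ∈ S, dbl τ g ∈ S) :
    (∀ a, (a, false) ∈ S → (τ a, false) ∈ S) ∧ (∀ a b, (a, b) ∈ S → (τ a, false) ∈ S) := by
  have h1 : ∀ a, (a, true) ∈ S → (τ a, false) ∈ S := fun a ha => hS _ ha
  have h2 : ∀ a, (a, false) ∈ S → (a, true) ∈ S := fun a ha => hS _ ha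
  refine ⟨fun a ha => h1 _ (h2 _ ha), ?_⟩
  rintro a (_ | _) ha
  · exact h1 _ (h2 _ ha)
  · exact h1 _ ha

/-! ### the two directions -/

variable {φ : Formula}

lemma sat_of (on : (Fin (nV φ + 1) × Fin (φ.length + 1)) × Bool → Prop)
    (h1 : ∀ g, on g ∨ on ((dat φ).ρ g))
    (h2 : ∀ g, (dat φ).ρ g = (dat φ).rt g → ¬ (on g ∧ on ((dat φ).ρ g)))
    (h3 : ∀ S : Set ((Fin (nV φ + 1) × Fin (φ.length + 1)) × Bool), S.Nonempty →
      (∀ g ∈ S, (dat φ).tp g ∈ S) → (∀ g ∈ S, (dat φ).tp⁻¹ g ∈ S) →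
        ∃ g ∈ S, (dat φ).al g ∧ on g) : φ.Satisfiable := by
  classical
  have a1 : ∀ x c, on ((x, c), true) ↔ ¬ on ((x, c), false) := by
    intro x c
    have e1 := h1 ((x, c), false)
    have e2 := h2 ((x, c), false) rfl
    have e3 : (dat φ).ρ ((x, c), false) = ((x, c), true) := rfl
    rw [e3] at e1 e2
    tauto
  have a2 : ∀ x (i : Fin φ.length), on ((x, i.succ), false) ↔ on ((x, i.castSucc), false) := by
    intro x i
    have e3 : (dat φ).ρ ((x, i.castSucc), true) = ((x, i.succ), false) := by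
      change (((x, i.castSucc + 1), false) : (Fin (nV φ + 1) × Fin (φ.length + 1)) × Bool) = _
      rw [Fin.coeSucc_eq_succ]
    have e4 : (dat φ).rt ((x, i.castSucc), true) = ((x, i.succ), false) := by
      change ((((if i.castSucc = Fin.last _ then x + 1 else x), i.castSucc + 1), false) :
        (Fin (nV φ + 1) × Fin (φ.length + 1)) × Bool) = _
      rw [if_neg (Fin.castSucc_lt_last i).ne, Fin.coeSucc_eq_succ]
    have e1 := h1 ((x, i.castSucc), true)
    have e2 := h2 ((x, i.castSucc), true) (e3.trans e4.symm)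
    rw [e3] at e1 e2
    have e5 := a1 x i.castSucc
    tauto
  have a3 : ∀ x c, on ((x, c), false) ↔ on ((x, 0), false) := by
    intro x c
    induction c using Fin.induction with
    | zero => rfl
    | succ i ih => rw [a2, ih]
  let val : Fin (nV φ + 1) → Bool := fun x => decide (¬ on ((x, 0), false))
  have a4 : ∀ x c b, on ((x, c), b) → val x = b := by
    rintro x c (_ | _) h
    · simp only [val, decide_eq_false_iff_not, not_not]
      rwa [a3] at h
    · simp only [val, decide_eq_true_eq]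
      rwa [a1, a3] at h
  refine ⟨fun i => if h : i < nV φ + 1 then val ⟨i, h⟩ else false, fun _ => false, ?_⟩
  intro C hC
  obtain ⟨k, hk, rfl⟩ := List.getElem_of_mem hC
  obtain ⟨⟨⟨x, c⟩, b⟩, hg, hal, hon⟩ := h3 {g | g.1.2 = (⟨k + 1, by omega⟩ : Fin (φ.length + 1))}
    ⟨((0, ⟨k + 1, by omega⟩), false), rfl⟩
    (by
      rintro ⟨⟨x, c⟩, _ | _⟩ hg
      · exact hg
      · exact hg)
    (by
      rintro ⟨⟨x, c⟩, _ | _⟩ hg
      · exact hg
      · exact hg)
  have hc : c = ⟨k + 1, by omega⟩ := hg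
  subst hc
  have hal' : alB φ x (k + 1) b = true := hal
  rw [alB] at hal'
  simp only [Nat.add_eq_zero_iff, one_ne_zero, and_false, decide_false, Nat.add_sub_cancel,
    Bool.false_or, decide_eq_true_eq] at hal'
  rw [List.getD_eq_getElem _ _ hk] at hal'
  refine ⟨_, hal', ?_⟩
  unfold Pool.Agent.Lib.MP_c85d9c_lc.Lit.Holds
  simp only [Bool.false_eq_true, if_false]
  rw [dif_pos x.2]
  exact a4 x _ b hon

lemma of_sat (hφ : φ.IsExistential) (h : φ.Satisfiable) :
    ∃ on tip : (Fin (nV φ + 1) × Fin (φ.length + 1)) × Bool → Bool,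
      (∀ g, on ((dat φ).ρ g) = !on g) ∧
      (∀ g, tip g = true → on g = true ∧ (dat φ).al g) ∧
      (∀ g, ∃ n : ℕ, tip (((dat φ).tp ^ n) g) = true) ∧
      (∀ g (n : ℕ), tip g = true → tip (((dat φ).tp ^ n) g) = true →
        ((dat φ).tp ^ n) g = g) := by
  obtain ⟨α, β, hα⟩ := h
  -- the chosen variables
  have hX : ∀ c : Fin (φ.length + 1), ∃ x : Fin (nV φ + 1), alB φ x c (α x) = true := by
    intro c
    by_cases hc : c.1 = 0
    · exact ⟨0, by simp [alB, hc]⟩
    · have hlt : c.1 - 1 < φ.length := by have := c.2; omega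
      have hmem : φ[c.1 - 1] ∈ φ := List.getElem_mem hlt
      obtain ⟨l, hl, hh⟩ := hα _ hmem
      have hl1 := hφ _ hmem _ hl
      refine ⟨⟨l.2.2, lt_nV hmem hl⟩, ?_⟩
      unfold Pool.Agent.Lib.MP_c85d9c_lc.Lit.Holds at hh
      rw [hl1] at hh
      simp only [Bool.false_eq_true, if_false] at hh
      unfold alB
      rw [Bool.or_eq_true]
      right
      rw [decide_eq_true_eq, List.getD_eq_getElem _ _ hlt]
      have : ((false, α l.2.2, l.2.2) : Lit) = l := by
        rw [hh, ← hl1]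
      rw [this]
      exact hl
  choose X hX using hX
  have snd : ∀ (n : ℕ) (g : (Fin (nV φ + 1) × Fin (φ.length + 1)) × Bool),
      (((dat φ).tp ^ n) g).1.2 = g.1.2 := by
    intro n
    induction n with
    | zero => intro g; rfl
    | succ n ih =>
      intro g
      rw [pow_succ', Equiv.Perm.mul_apply]
      have : ∀ g, ((dat φ).tp g).1.2 = g.1.2 := by
        rintro ⟨⟨x, c⟩, _ | _⟩ <;> rfl
      rw [this, ih]
  refine ⟨fun g => α g.1.1 == g.2, fun g => decide (g.1.1 = X g.1.2) && (α g.1.1 == g.2),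
    ?_, ?_, ?_, ?_⟩
  · rintro ⟨⟨x, c⟩, _ | _⟩
    · change (α x == true) = !(α x == false)
      cases α x <;> rfl
    · change (α x == false) = !(α x == true)
      cases α x <;> rfl
  · rintro ⟨⟨x, c⟩, b⟩ hg
    simp only [Bool.and_eq_true, decide_eq_true_eq, beq_iff_eq] at hg
    obtain ⟨h1, h2⟩ := hg
    refine ⟨by simpa using h2, ?_⟩
    change alB φ x c b = true
    rw [← h2, h1]
    exact hX c
  · rintro ⟨⟨x, c⟩, b⟩
    -- the orbit
    let S : Set ((Fin (nV φ + 1) × Fin (φ.length + 1)) × Bool) :=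
      {g | ∃ n : ℕ, ((dat φ).tp ^ n) ((x, c), b) = g}
    have hS : ∀ g ∈ S, (dat φ).tp g ∈ S := by
      rintro _ ⟨n, rfl⟩
      exact ⟨n + 1, by rw [pow_succ', Equiv.Perm.mul_apply]⟩
    obtain ⟨hc1, hc2⟩ := dbl_closed (τ := nxV _ _) hS
    have h0 : ((x, c), b) ∈ S := ⟨0, rfl⟩
    have h1 := fin_closed (S := {y | ((y, c), false) ∈ S}) ⟨x + 1, hc2 _ _ h0⟩
      (fun y hy => hc1 _ hy)
    have h2 : ((X c, c), false) ∈ S := by
      have : X c ∈ {y | ((y, c), false) ∈ S} := by rw [h1]; trivial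
      exact this
    have h3 : ((X c, c), true) ∈ S := hS _ h2
    have h4 : ((X c, c), α (X c)) ∈ S := by
      cases α (X c)
      · exact h2
      · exact h3
    obtain ⟨n, hn⟩ := h4
    refine ⟨n, ?_⟩
    rw [hn]
    simp
  · rintro ⟨⟨x, c⟩, b⟩ n h1 h2
    have h3 := snd n ((x, c), b)
    simp only [Bool.and_eq_true, decide_eq_true_eq, beq_iff_eq] at h1 h2
    generalize ((dat φ).tp ^ n) ((x, c), b) = g at h2 h3
    obtain ⟨⟨x', c'⟩, b'⟩ := g
    simp only at h1 h2 h3
    subst h3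
    rw [← h1.2, ← h2.2, h1.1, h2.1]

/-- The graph of a formula is Hamiltonian if and only if the formula is satisfiable. -/
theorem ham_iff (hφ : φ.IsExistential) {ℓ : ℕ} (hℓ : 1 ≤ ℓ) :
    ((dat φ).pg.gr ℓ).IsHamiltonian ↔ φ.Satisfiable := by
  have h3 : 3 ≤ Fintype.card ((((Fin (nV φ + 1) × Fin (φ.length + 1)) × Bool) × Fin 8) ×
      Fin (ℓ + 1)) := by
    simp only [Fintype.card_prod, Fintype.card_fin, Fintype.card_bool]
    have h1 : 1 ≤ (nV φ + 1) * (φ.length + 1) := Nat.mul_pos (by omega) (by omega)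
    have h2 : 1 ≤ (nV φ + 1) * (φ.length + 1) * 2 * 8 * (ℓ + 1) := by
      refine Nat.mul_pos (Nat.mul_pos (Nat.mul_pos h1 ?_) ?_) ?_ <;> omega
    nlinarith
  constructor
  · intro h
    obtain ⟨σ, e1, e2, e3⟩ := exists_perm_of_ham h3 h
    obtain ⟨μ, f1, f2, f3⟩ := exists_matching _ hℓ σ e1 e2 e3
    obtain ⟨on, g1, g2, g3⟩ := (dat φ).sound μ f1 f2 f3
    exact sat_of on g1 g2 g3
  · intro h
    obtain ⟨on, tip, g1, g2, g3, g4⟩ := of_sat hφ h
    obtain ⟨μ, o, f1, f2, f3, f4, f5⟩ := (dat φ).complete on tip g1 g2 (by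
      intro S hS hS'
      obtain ⟨hc1, hc2⟩ := dbl_closed (τ := nxO _ _) hS'
      obtain ⟨⟨a, b⟩, hab⟩ := hS
      have h1 := odo_closed (S := {a | (a, false) ∈ S}) ⟨_, hc2 _ _ hab⟩ (fun a ha => hc1 _ ha)
      have h2 : ∀ a, (a, false) ∈ S := by
        intro a
        have : a ∈ {a | (a, false) ∈ S} := by rw [h1]; trivial
        exact this
      ext ⟨a, _ | _⟩
      · simp [h2 a]
      · simp only [Set.mem_univ, iff_true]
        exact hS' _ (h2 a)) g3 g4 (fun g => ⟨orderOf (dat φ).tp, orderOf_pos _, by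
        rw [pow_orderOf_eq_one]; rfl⟩)
    obtain ⟨σ, e1, e2⟩ := exists_perm (ℓ := ℓ) _ μ f1 f2 o f3 f4 f5
    exact ham_of_perm h3 σ e1 e2

/-- The graph of a formula is free. -/
theorem free_dat {W : Type*} {F : SimpleGraph W} (φ : Formula) {ℓ : ℕ} (a b : W)
    (ha : 3 ≤ (F.neighborSet a).ncard) (hb : 3 ≤ (F.neighborSet b).ncard)
    (hr : F.Reachable a b) (hd : 6 ≤ F.dist a b) (hℓ : F.dist a b ≤ ℓ) :
    F.Free ((dat φ).pg.gr ℓ) := by
  refine free_of_blocks a b ha hb hr hd hℓ Prod.fst (fun p q h => h.1) ?_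
  intro g
  have h1 : {p : ((Fin (nV φ + 1) × Fin (φ.length + 1)) × Bool) × Fin 8 | p.1 = g} ⊆
      (fun i : Fin 8 => (g, i)) '' Set.univ := by
    rintro ⟨g', i⟩ rfl
    exact ⟨i, trivial, rfl⟩
  refine (Set.ncard_le_ncard h1 (Set.toFinite _)).trans ?_
  refine (Set.ncard_image_le (Set.toFinite _)).trans ?_
  rw [Set.ncard_univ, Nat.card_eq_fintype_card, Fintype.card_fin]

end Pool.Agent.Lib.MP_2e830d_lc
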