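import Pool.Agent.Lib.MP_2e830d_lc.Comp
import Pool.Agent.Lib.CookLevin.NP

set_option autoImplicit false

/-!
# The graphs with a Hamiltonian cycle form a language in NP
-/

namespace Pool.Agent.Lib.MP_2e830d_lc

open SimpleGraph Turing Pool.Agent.Lib.PT Pool.Agent.Lib.CookLevin

/-- adjacency in the graph of a matrix -/
def adjB (M : List (List Bool)) (i j : ℕ) : Bool :=
  !decide (i = j) && ((M.getD i []).getD j false || (M.getD j []).getD i false)

lemma adjB_iff (M : List (List Bool)) (i j : Fin M.length) :
    (matGraph M).Adj i j ↔ adjB M i.1 j.1 = true := by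
  rw [matGraph, SimpleGraph.fromRel_adj, adjB, Bool.and_eq_true, Bool.or_eq_true,
    Bool.not_eq_true', decide_eq_false_iff_not, ne_eq, Fin.ext_iff]

/-- the list `s` is a Hamiltonian cycle -/
def good (M : List (List Bool)) (s : List ℕ) : Bool :=
  decide (3 ≤ M.length) &&
    ((List.range M.length).all fun k => decide (s.getD k 0 < M.length) &&
      (adjB M (s.getD k 0) (s.getD ((k + 1) % M.length) 0) &&
        ((List.range M.length).all fun l => decide (k = l) ||
          !decide (s.getD k 0 = s.getD l 0))))

lemma good_iff (M : List (List Bool)) (s : List ℕ) : good M s = true ↔ 3 ≤ M.length ∧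
    ∀ k < M.length, s.getD k 0 < M.length ∧
      adjB M (s.getD k 0) (s.getD ((k + 1) % M.length) 0) = true ∧
        ∀ l < M.length, k = l ∨ s.getD k 0 ≠ s.getD l 0 := by
  simp only [good, Bool.and_eq_true, decide_eq_true_eq, List.all_eq_true, List.mem_range,
    Bool.or_eq_true, Bool.not_eq_true', decide_eq_false_iff_not, ne_eq]

lemma ham_of_good {M : List (List Bool)} {s : List ℕ} (h : good M s = true) :
    (matGraph M).IsHamiltonian := by
  rw [good_iff] at h
  obtain ⟨h3, h⟩ := h
  rw [isHamiltonian_iff _ (by rw [Fintype.card_fin]; exact h3), Fintype.card_fin]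
  refine ⟨⟨⟨fun k => ⟨s.getD k.1 0, (h k.1 k.2).1⟩, ?_⟩, ?_⟩⟩
  · intro i j hij
    have main : ∀ i j : Fin M.length, (i - j).val = 1 →
        adjB M (s.getD j.1 0) (s.getD i.1 0) = true := by
      intro i j h1
      have h2 := i.2
      have h4 := j.2
      have h5 := (h j.1 j.2).2.1
      have h6 : (j.1 + 1) % M.length = i.1 := by
        rw [Fin.sub_def] at h1
        simp only at h1
        rcases Nat.lt_or_ge i.1 j.1 with hlt | hge
        · have h5 : M.length - j.1 + i.1 < M.length := by omega
          rw [Nat.mod_eq_of_lt h5] at h1
          have h6 : j.1 + 1 = M.length := by omega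
          have h7 : i.1 = 0 := by omega
          rw [h6, h7]; simp
        · have h5 : M.length - j.1 + i.1 = M.length + (i.1 - j.1) := by omega
          rw [h5, Nat.add_mod_left, Nat.mod_eq_of_lt (by omega)] at h1
          rw [Nat.mod_eq_of_lt (by omega)]
          omega
      rwa [h6] at h5
    rcases cycleGraph_adj'.1 hij with h1 | h1
    · exact ((adjB_iff M ⟨_, (h j.1 j.2).1⟩ ⟨_, (h i.1 i.2).1⟩).2 (main _ _ h1)).symm
    · exact (adjB_iff M ⟨_, (h i.1 i.2).1⟩ ⟨_, (h j.1 j.2).1⟩).2 (main _ _ h1)
  · intro i j hij
    have h1 : s.getD i.1 0 = s.getD j.1 0 := congrArg Fin.val hij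
    rcases (h i.1 i.2).2.2 j.1 j.2 with h2 | h2
    · exact Fin.ext h2
    · exact absurd h1 h2

lemma exists_good {M : List (List Bool)} (h1 : M.length ≠ 1) (h : (matGraph M).IsHamiltonian) :
    ∃ s : List ℕ, s.length = M.length ∧ (∀ a ∈ s, a < M.length) ∧ good M s = true := by
  have h3 : 3 ≤ M.length := by
    obtain ⟨a, p, hp⟩ := h (by rw [Fintype.card_fin]; exact h1)
    have h2 := hp.length_eq
    rw [Fintype.card_fin] at h2
    rw [← h2]
    exact hp.isCycle.three_le_length
  rw [isHamiltonian_iff _ (by rw [Fintype.card_fin]; exact h3), Fintype.card_fin] at h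
  obtain ⟨f⟩ := h
  let s : List ℕ := List.ofFn fun k : Fin M.length => (f k).1
  have hs : ∀ (k : ℕ) (hk : k < M.length), s.getD k 0 = (f ⟨k, hk⟩).1 := by
    intro k hk
    rw [List.getD_eq_getElem _ _ (by simpa [s] using hk)]
    simp [s]
  refine ⟨s, by simp [s], ?_, ?_⟩
  · intro a ha
    simp only [s, List.mem_ofFn] at ha
    obtain ⟨k, rfl⟩ := ha
    exact (f k).2
  · rw [good_iff]
    refine ⟨h3, fun k hk => ⟨?_, ?_, ?_⟩⟩
    · rw [hs k hk]; exact (f _).2
    · have hk' : (k + 1) % M.length < M.length := Nat.mod_lt _ (by omega)
      rw [hs k hk, hs _ hk', ← adjB_iff]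
      apply f.toHom.map_adj
      rw [cycleGraph_adj']
      right
      rw [Fin.sub_def]
      simp only
      rcases Nat.lt_or_ge (k + 1) M.length with hlt | hge
      · rw [Nat.mod_eq_of_lt hlt, show M.length - k + (k + 1) = M.length + 1 by omega,
          Nat.add_mod_left, Nat.mod_eq_of_lt (by omega)]
      · have h5 : k + 1 = M.length := by omega
        rw [h5, Nat.mod_self, show M.length - k + 0 = 1 by omega, Nat.mod_eq_of_lt (by omega)]
    · intro l hl
      by_cases hkl : k = l
      · exact Or.inl hkl
      · right
        rw [hs k hk, hs l hl]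
        intro e
        have := f.injective (Fin.ext e)
        exact hkl (congrArg Fin.val this)

/-! ### certificates -/

/-- the certificate of a list of numbers -/
def encS (s : List ℕ) : List Bool := s.flatMap fun a => List.replicate a true ++ [false]

/-- one step of reading a certificate -/
def stepS (a : ℕ × List ℕ) (b : Bool) : ℕ × List ℕ := bif b then (a.1 + 1, a.2) else (0, a.1 :: a.2)

/-- reading a certificate -/
def decS (w : List Bool) : List ℕ := (w.foldl stepS (0, [])).2.reverse

lemma foldl_rep (k c : ℕ) (r : List ℕ) :
    (List.replicate k true).foldl stepS (c, r) = (c + k, r) := by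
  induction k generalizing c with
  | zero => rfl
  | succ k ih =>
    rw [List.replicate_succ, List.foldl_cons]
    have : stepS (c, r) true = (c + 1, r) := rfl
    rw [this, ih]
    congr 1
    omega

lemma decS_encS (s : List ℕ) : decS (encS s) = s := by
  have key : ∀ (s r : List ℕ), (encS s).foldl stepS (0, r) = (0, s.reverse ++ r) := by
    intro s
    induction s with
    | nil => intro r; rfl
    | cons a s ih =>
      intro r
      have h1 : encS (a :: s) = (List.replicate a true ++ [false]) ++ encS s := rfl
      rw [h1, List.foldl_append, List.foldl_append, foldl_rep]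
      have h2 : [false].foldl stepS (0 + a, r) = (0, a :: r) := by simp [stepS]
      rw [h2, ih]
      simp
  rw [decS, key]
  simp

lemma length_encS {s : List ℕ} {n : ℕ} (h : ∀ a ∈ s, a < n) : (encS s).length ≤ s.length * n := by
  induction s with
  | nil => simp [encS]
  | cons a s ih =>
    have h1 : encS (a :: s) = (List.replicate a true ++ [false]) ++ encS s := rfl
    have h2 := ih fun b hb => h b (List.mem_cons_of_mem _ hb)
    have h3 := h a List.mem_cons_self
    rw [h1, List.length_append, List.length_append, List.length_replicate, List.length_cons,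
      List.length_cons, List.length_nil, Nat.succ_mul]
    omega

lemma length_le_encM (M : List (List Bool)) : M.length ≤ (encM M).length := by
  induction M with
  | nil => simp
  | cons r M ih =>
    have h1 : encM (r :: M) = none :: (r.map some ++ encM M) := rfl
    rw [h1, List.length_cons, List.length_cons, List.length_append]
    omega

/-- the verifier -/
def ver (p : List (Option Bool) × List Bool) : Bool :=
  decide (encM (decM p.1).2 = p.1) &&
    (decide ((decM p.1).2.length = 1) || good (decM p.1).2 (decS p.2))

theorem ver_iff (w : List (Option Bool)) :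
    (∃ M, encM M = w ∧ (matGraph M).IsHamiltonian) ↔
      ∃ c : List Bool, c.length ≤ (Polynomial.X ^ 2 : Polynomial ℕ).eval w.length ∧
        ver (w, c) = true := by
  rw [Polynomial.eval_pow, Polynomial.eval_X]
  constructor
  · rintro ⟨M, rfl, h⟩
    have h0 : (decM (encM M)).2 = M := by rw [decM_encM]
    by_cases h1 : M.length = 1
    · refine ⟨[], Nat.zero_le _, ?_⟩
      simp [ver, h0, h1]
    · obtain ⟨s, hs1, hs2, hs3⟩ := exists_good h1 h
      refine ⟨encS s, ?_, ?_⟩
      · refine (length_encS hs2).trans ?_
        rw [hs1, ← pow_two]
        exact Nat.pow_le_pow_left (length_le_encM M) 2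
      · simp [ver, h0, decS_encS, hs3]
  · rintro ⟨c, -, h⟩
    simp only [ver, Bool.and_eq_true, Bool.or_eq_true, decide_eq_true_eq] at h
    obtain ⟨h1, h2⟩ := h
    refine ⟨_, h1, ?_⟩
    rcases h2 with h2 | h2
    · intro h
      rw [Fintype.card_fin] at h
      exact absurd h2 h
    · exact ham_of_good h2

/-! ### computability -/

theorem ptime_adjB : PTime fun p : List (List Bool) × ℕ × ℕ => adjB p.1 p.2.1 p.2.2 := by
  unfold adjB
  fun_prop

theorem ptime_good : PTime fun p : List (List Bool) × List ℕ => good p.1 p.2 := by
  unfold good
  have h1 : PTime fun p : (List (List Bool) × List ℕ) × ℕ =>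
      adjB p.1.1 (p.1.2.getD p.2 0) (p.1.2.getD ((p.2 + 1) % p.1.1.length) 0) :=
    ptime_adjB.comp (g := fun p : (List (List Bool) × List ℕ) × ℕ =>
      (p.1.1, p.1.2.getD p.2 0, p.1.2.getD ((p.2 + 1) % p.1.1.length) 0)) (by fun_prop)
  have h2 : PTime fun p : (List (List Bool) × List ℕ) × ℕ =>
      (List.range p.1.1.length).all fun l => decide (p.2 = l) ||
          !decide (p.1.2.getD p.2 0 = p.1.2.getD l 0) :=
    PTime.all (l := fun p : (List (List Bool) × List ℕ) × ℕ => List.range p.1.1.length)
      (f := fun (p : (List (List Bool) × List ℕ) × ℕ) (l : ℕ) => decide (p.2 = l) ||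
          !decide (p.1.2.getD p.2 0 = p.1.2.getD l 0)) (by fun_prop) (by fun_prop)
  have h3 : PTime fun p : List (List Bool) × List ℕ =>
      (List.range p.1.length).all fun k => decide (p.2.getD k 0 < p.1.length) &&
      (adjB p.1 (p.2.getD k 0) (p.2.getD ((k + 1) % p.1.length) 0) &&
        ((List.range p.1.length).all fun l => decide (k = l) ||
          !decide (p.2.getD k 0 = p.2.getD l 0))) :=
    PTime.all (l := fun p : List (List Bool) × List ℕ => List.range p.1.length)
      (f := fun (p : List (List Bool) × List ℕ) (k : ℕ) => decide (p.2.getD k 0 < p.1.length) &&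
        (adjB p.1 (p.2.getD k 0) (p.2.getD ((k + 1) % p.1.length) 0) &&
          ((List.range p.1.length).all fun l => decide (k = l) ||
            !decide (p.2.getD k 0 = p.2.getD l 0)))) (by fun_prop) (by fun_prop)
  fun_prop

theorem ptime_decS : PTime decS := by
  have key : ∀ (l : List Bool) (s : ℕ × List ℕ), sz (l.foldl stepS s) ≤ sz s + 10 * l.length := by
    intro l
    induction l with
    | nil => intro s; simp
    | cons x l ih =>
      intro s
      rw [List.foldl_cons, List.length_cons]
      refine (ih _).trans ?_
      have : sz (stepS s x) ≤ sz s + 10 := by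
        obtain ⟨c, r⟩ := s
        cases x
        · have : stepS (c, r) false = (0, c :: r) := rfl
          rw [this]
          simp only [sz_mk, sz_nat, sz_cons]; omega
        · have : stepS (c, r) true = (c + 1, r) := rfl
          rw [this]
          simp only [sz_mk, sz_nat]; omega
      omega
  have h0 : PTime fun p : List Bool × (ℕ × List ℕ) × Bool => stepS p.2.1 p.2.2 := by
    unfold stepS
    exact PTime.cond (b := fun p : List Bool × (ℕ × List ℕ) × Bool => p.2.2) (by fun_prop)
      (by fun_prop) (by fun_prop)
  have h2 : PTime fun w : List Bool => w.foldl stepS (0, []) := by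
    refine PTime.foldl (l := fun w : List Bool => w) (s := fun _ => (0, []))
      (f := fun _ => stepS) (by fun_prop) (by fun_prop) h0
      (B := fun w => 5 + 10 * sz w) ((PT.PB.const 5).add ((PT.PB.const 10).mul PT.PB.sz)) ?_
    intro w l₁ l₂ e
    refine (key _ _).trans ?_
    have := length_le_sz w
    rw [e, List.length_append] at this
    simp only [sz_mk, sz_nat, sz_nil]
    rw [e]
    omega
  exact h2.snd'.reverse

/-- one step of reading a matrix -/
def stepM (a : List Bool × List (List Bool)) (x : Option Bool) : List Bool × List (List Bool) :=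
  match x with
    | none => ([], a.1 :: a.2)
    | some b => (b :: a.1, a.2)

theorem ptime_decM : PTime decM := by
  have key : ∀ (l : List (Option Bool)) (s : List Bool × List (List Bool)),
      sz (l.foldl stepM s) ≤ sz s + 10 * l.length := by
    intro l
    induction l with
    | nil => intro s; simp
    | cons x l ih =>
      intro s
      rw [List.foldl_cons, List.length_cons]
      refine (ih _).trans ?_
      have : sz (stepM s x) ≤ sz s + 10 := by
        obtain ⟨c, r⟩ := s
        cases x with
        | none => simp only [stepM, sz_mk, sz_cons, sz_nil]; omega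
        | some b =>
          have := sz_bool b
          simp only [stepM, sz_mk, sz_cons]; omega
      omega
  have h0 : PTime fun p : List (Option Bool) × (List Bool × List (List Bool)) × Option Bool =>
      stepM p.2.1 p.2.2 := by
    refine PTime.finCases (g := fun p : List (Option Bool) ×
      (List Bool × List (List Bool)) × Option Bool => p.2.2)
      (h := fun p x => stepM p.2.1 x) (by fun_prop) ?_
    intro x
    cases x <;> simp only [stepM] <;> fun_prop
  have h2 : PTime fun w : List (Option Bool) => w.reverse.foldl stepM ([], []) := by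
    refine PTime.foldl (l := fun w : List (Option Bool) => w.reverse) (s := fun _ => ([], []))
      (f := fun _ => stepM) (by fun_prop) (by fun_prop) (h0)
      (B := fun w => 5 + 10 * sz w) ((PT.PB.const 5).add ((PT.PB.const 10).mul PT.PB.sz)) ?_
    intro w l₁ l₂ e
    refine (key _ _).trans ?_
    have h1 := length_le_sz w
    have h3 : w.length = l₁.length + l₂.length := by
      rw [← List.length_reverse, e, List.length_append]
    simp only [sz_mk, sz_nil]
    omega
  refine h2.of_eq fun w => ?_
  rw [decM, List.foldr_eq_foldl_reverse]
  rfl

theorem ptime_ver : PTime ver := by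
  unfold ver
  have h1 : PTime fun p : List (Option Bool) × List Bool => (decM p.1).2 :=
    PTime.snd' (ptime_decM.comp (by fun_prop))
  have h2 : PTime fun p : List (Option Bool) × List Bool => encM (decM p.1).2 :=
    ptime_encM.comp h1
  have h3 : PTime fun p : List (Option Bool) × List Bool => good (decM p.1).2 (decS p.2) :=
    ptime_good.comp (g := fun p : List (Option Bool) × List Bool => ((decM p.1).2, decS p.2))
      (PTime.pair h1 (ptime_decS.comp (by fun_prop)))
  fun_prop

/-- The graphs with a Hamiltonian cycle form a language in NP. -/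
theorem inNP : InNP {w : List (Option Bool) | ∃ M, encM M = w ∧ (matGraph M).IsHamiltonian} := by
  refine ⟨Polynomial.X ^ 2, fun p => ver p, ?_, fun w => ver_iff w⟩
  let left : List (Option Bool ⊕ Bool) → List (Option Bool) := fun u => u.flatMap fun x =>
    match x with
      | Sum.inl a => [a]
      | Sum.inr _ => []
  let right : List (Option Bool ⊕ Bool) → List Bool := fun u => u.flatMap fun x =>
    match x with
      | Sum.inl _ => []
      | Sum.inr a => [a]
  have hl : PTime left := by
    refine PTime.flatMap (l := fun u : List (Option Bool ⊕ Bool) => u)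
      (f := fun _ x => match x with
        | Sum.inl a => [a]
        | Sum.inr _ => []) (by fun_prop) ?_
    exact PTime.ofFinite (g := fun p : List (Option Bool ⊕ Bool) × (Option Bool ⊕ Bool) => p.2)
      (by fun_prop) (fun x => match x with
        | Sum.inl a => [a]
        | Sum.inr _ => [])
  have hr : PTime right := by
    refine PTime.flatMap (l := fun u : List (Option Bool ⊕ Bool) => u)
      (f := fun _ x => match x with
        | Sum.inl _ => []
        | Sum.inr a => [a]) (by fun_prop) ?_
    exact PTime.ofFinite (g := fun p : List (Option Bool ⊕ Bool) × (Option Bool ⊕ Bool) => p.2)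
      (by fun_prop) (fun x => match x with
        | Sum.inl _ => []
        | Sum.inr a => [a])
  have hle : ∀ (w : List (Option Bool)) (c : List Bool), left (encPair (w, c)) = w := by
    intro w c
    have h1 : ∀ w : List (Option Bool), left (w.map Sum.inl) = w := by
      intro w
      induction w with
      | nil => rfl
      | cons a w ih =>
        have : left ((a :: w).map Sum.inl) = [a] ++ left (w.map Sum.inl) := rfl
        rw [this, ih]; rfl
    have h2 : ∀ c : List Bool, left (c.map Sum.inr) = [] := by
      intro c
      induction c with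
      | nil => rfl
      | cons a c ih =>
        have : left ((a :: c).map Sum.inr) = [] ++ left (c.map Sum.inr) := rfl
        rw [this, ih]; rfl
    have h3 : left (encPair (w, c)) = left (w.map Sum.inl) ++ left (c.map Sum.inr) :=
      List.flatMap_append
    rw [h3, h1, h2, List.append_nil]
  have hri : ∀ (w : List (Option Bool)) (c : List Bool), right (encPair (w, c)) = c := by
    intro w c
    have h1 : ∀ w : List (Option Bool), right (w.map Sum.inl) = [] := by
      intro w
      induction w with
      | nil => rfl
      | cons a w ih =>
        have : right ((a :: w).map Sum.inl) = [] ++ right (w.map Sum.inl) := rfl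
        rw [this, ih]; rfl
    have h2 : ∀ c : List Bool, right (c.map Sum.inr) = c := by
      intro c
      induction c with
      | nil => rfl
      | cons a c ih =>
        have : right ((a :: c).map Sum.inr) = [a] ++ right (c.map Sum.inr) := rfl
        rw [this, ih]; rfl
    have h3 : right (encPair (w, c)) = right (w.map Sum.inl) ++ right (c.map Sum.inr) :=
      List.flatMap_append
    rw [h3, h1, h2, List.nil_append]
  refine ptime_tm' (F := fun u => [ver (left u, right u)]) (fun a b h => EncInj.inj h) ?_
    fun p => ?_
  · have : PTime fun u => ver (left u, right u) := ptime_ver.comp (PTime.pair hl hr)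
    fun_prop
  · obtain ⟨w, c⟩ := p
    rw [hle, hri]
    rfl

end Pool.Agent.Lib.MP_2e830d_lc
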