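import Pool.Agent.Lib.MP_2e830d_lc.Inst

set_option autoImplicit false

/-!
# Adjacency matrices
-/

namespace Pool.Agent.Lib.MP_2e830d_lc

open SimpleGraph
open Pool.Agent.Lib.MP_c85d9c_lc (Formula Lit)

/-- The graph with the adjacency matrix `M` (a list of rows; missing entries are `false`): two
different vertices `i` and `j` are adjacent if `M i j` or `M j i` is `true`. -/
def matGraph (M : List (List Bool)) : SimpleGraph (Fin M.length) :=
  SimpleGraph.fromRel fun i j => (M.getD i.1 []).getD j.1 false = true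

/-- The encoding of matrices by words: the rows one after the other, each preceded by the letter
`none`. -/
def encM (M : List (List Bool)) : List (Option Bool) := M.flatMap fun r => none :: r.map some

/-- reading a matrix from the right -/
def decM (w : List (Option Bool)) : List Bool × List (List Bool) :=
  w.foldr (fun x a => match x with
    | none => ([], a.1 :: a.2)
    | some b => (b :: a.1, a.2)) ([], [])

lemma decM_encM (M : List (List Bool)) : decM (encM M) = ([], M) := by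
  induction M with
  | nil => rfl
  | cons r M ih =>
    have h1 : encM (r :: M) = none :: (r.map some ++ encM M) := rfl
    have h2 : ∀ r : List Bool, decM (r.map some ++ encM M) = (r, M) := by
      intro r
      induction r with
      | nil => exact ih
      | cons b r ih2 =>
        have : decM ((b :: r).map some ++ encM M) =
            (b :: (decM (r.map some ++ encM M)).1, (decM (r.map some ++ encM M)).2) := rfl
        rw [this, ih2]
    have h3 : decM (none :: (r.map some ++ encM M)) =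
        ([], (decM (r.map some ++ encM M)).1 :: (decM (r.map some ++ encM M)).2) := rfl
    rw [h1, h3, h2]

lemma encM_injective : Function.Injective encM := by
  intro M M' h
  have h1 := decM_encM M
  rw [h, decM_encM] at h1
  exact (congrArg Prod.snd h1).symm

/-- codes of blocks -/
abbrev CB := (ℕ × ℕ) × Bool

/-- codes of vertices -/
abbrev CV := (CB × ℕ) × ℕ

/-- next clause -/
def cR (n : ℕ) (g : CB) : CB := if g.2 then ((g.1.1, (g.1.2 + 1) % (n + 1)), false) else (g.1, true)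

/-- next pair -/
def cO (m n : ℕ) (g : CB) : CB :=
  if g.2 then ((if g.1.2 = n then (g.1.1 + 1) % (m + 1) else g.1.1, (g.1.2 + 1) % (n + 1)), false)
  else (g.1, true)

/-- next variable -/
def cT (m : ℕ) (g : CB) : CB := if g.2 then (((g.1.1 + 1) % (m + 1), g.1.2), false) else (g.1, true)

/-- the tails -/
def fwd (m n : ℕ) (p q : CB × ℕ) : Bool :=
  (decide (p.2 = 3) && decide (q = (cO m n p.1, 2))) ||
  (decide (p.2 = 4) && decide (q = (cR n p.1, 1))) ||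
  (decide (p.2 = 5) && decide (q = (cR n p.1, 0))) ||
  (decide (p.2 = 7) && decide (q = (cT m p.1, 6)))

/-- the edges of the gadgets -/
def loc (φ : Formula) (p q : CB × ℕ) : Bool :=
  decide (p.1 = q.1) &&
    (decide ((p.2, q.2) ∈ [(0, 1), (1, 2), (2, 3), (3, 4), (4, 5), (0, 5), (6, 7)]) ||
      (alB φ p.1.1.1 p.1.1.2 p.1.2 && decide ((p.2, q.2) ∈ [(5, 6), (0, 7)])))

/-- the entries of the matrix -/
def bit (ℓ : ℕ) (φ : Formula) (v w : CV) : Bool :=
  (decide (v.1 = w.1) && decide (v.2 + 1 = w.2)) ||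
  (decide (v.2 = ℓ) && (decide (w.2 = ℓ) && fwd (nV φ) φ.length v.1 w.1)) ||
  (decide (v.2 = 0) && (decide (w.2 = 0) && loc φ v.1 w.1))

/-- the vertices -/
def verts (ℓ : ℕ) (φ : Formula) : List CV :=
  (((List.range (nV φ + 1) ×ˢ List.range (φ.length + 1)) ×ˢ [false, true]) ×ˢ List.range 8) ×ˢ
    List.range (ℓ + 1)

/-- the matrix of a formula -/
def red (ℓ : ℕ) (φ : Formula) : List (List Bool) :=
  (verts ℓ φ).map fun v => (verts ℓ φ).map fun w => bit ℓ φ v w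

section

variable {φ : Formula} {ℓ : ℕ}

/-- the code of a block -/
def cb (g : (Fin (nV φ + 1) × Fin (φ.length + 1)) × Bool) : CB := ((g.1.1.1, g.1.2.1), g.2)

/-- the code of a port -/
def cp (p : ((Fin (nV φ + 1) × Fin (φ.length + 1)) × Bool) × Fin 8) : CB × ℕ := (cb p.1, p.2.1)

/-- the code of a vertex -/
def cv (v : (((Fin (nV φ + 1) × Fin (φ.length + 1)) × Bool) × Fin 8) × Fin (ℓ + 1)) : CV :=
  (cp v.1, v.2.1)

lemma cb_inj {g h : (Fin (nV φ + 1) × Fin (φ.length + 1)) × Bool} : cb g = cb h ↔ g = h := by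
  refine ⟨fun e => ?_, fun e => by rw [e]⟩
  obtain ⟨⟨x, c⟩, b⟩ := g
  obtain ⟨⟨x', c'⟩, b'⟩ := h
  simp only [cb, Prod.mk.injEq, Fin.ext_iff] at e ⊢
  exact e

lemma cp_inj {g h : ((Fin (nV φ + 1) × Fin (φ.length + 1)) × Bool) × Fin 8} :
    cp g = cp h ↔ g = h := by
  refine ⟨fun e => ?_, fun e => by rw [e]⟩
  obtain ⟨g, i⟩ := g
  obtain ⟨h, j⟩ := h
  simp only [cp, Prod.mk.injEq, cb_inj, Fin.ext_iff] at e ⊢
  exact e

lemma cv_inj {v w : (((Fin (nV φ + 1) × Fin (φ.length + 1)) × Bool) × Fin 8) × Fin (ℓ + 1)} :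
    cv v = cv w ↔ v = w := by
  refine ⟨fun e => ?_, fun e => by rw [e]⟩
  obtain ⟨g, i⟩ := v
  obtain ⟨h, j⟩ := w
  simp only [cv, Prod.mk.injEq, cp_inj, Fin.ext_iff] at e ⊢
  exact e

lemma add_one_val {n : ℕ} (c : Fin (n + 1)) : (c + 1).1 = (c.1 + 1) % (n + 1) := by
  rw [Fin.val_add, Fin.val_one']
  simp

lemma cb_ρ (g : (Fin (nV φ + 1) × Fin (φ.length + 1)) × Bool) :
    cb ((dat φ).ρ g) = cR φ.length (cb g) := by
  obtain ⟨⟨x, c⟩, _ | _⟩ := g
  · rfl
  · change ((x.1, (c + 1).1), false) = ((x.1, (c.1 + 1) % (φ.length + 1)), false)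
    rw [add_one_val]

lemma cb_tp (g : (Fin (nV φ + 1) × Fin (φ.length + 1)) × Bool) :
    cb ((dat φ).tp g) = cT (nV φ) (cb g) := by
  obtain ⟨⟨x, c⟩, _ | _⟩ := g
  · rfl
  · change (((x + 1).1, c.1), false) = (((x.1 + 1) % (nV φ + 1), c.1), false)
    rw [add_one_val]

lemma cb_rt (g : (Fin (nV φ + 1) × Fin (φ.length + 1)) × Bool) :
    cb ((dat φ).rt g) = cO (nV φ) φ.length (cb g) := by
  obtain ⟨⟨x, c⟩, _ | _⟩ := g
  · rfl
  · change (((if c = Fin.last _ then x + 1 else x).1, (c + 1).1), false) =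
      ((if c.1 = φ.length then (x.1 + 1) % (nV φ + 1) else x.1, (c.1 + 1) % (φ.length + 1)), false)
    have h : c = Fin.last _ ↔ c.1 = φ.length := by rw [Fin.ext_iff, Fin.val_last]
    by_cases hc : c.1 = φ.length
    · rw [if_pos (h.2 hc), if_pos hc, add_one_val, add_one_val]
    · rw [if_neg (fun e => hc (h.1 e)), if_neg hc, add_one_val]

lemma fwd_iff (p q : ((Fin (nV φ + 1) × Fin (φ.length + 1)) × Bool) × Fin 8) :
    fwd (nV φ) φ.length (cp p) (cp q) = true ↔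
      (p.2 = 3 ∨ p.2 = 4 ∨ p.2 = 5 ∨ p.2 = 7) ∧ q = (dat φ).pg.π p := by
  obtain ⟨g, i⟩ := p
  obtain ⟨h, j⟩ := q
  have hq : ∀ (g' : (Fin (nV φ + 1) × Fin (φ.length + 1)) × Bool) (k : Fin 8),
      cp (h, j) = (cb g', k.1) ↔ (h, j) = (g', k) := fun g' k =>
    (cp_inj (g := (h, j)) (h := (g', k)))
  have e3 := hq ((dat φ).rt g) 2
  have e4 := hq ((dat φ).ρ g) 1
  have e5 := hq ((dat φ).ρ g) 0
  have e7 := hq ((dat φ).tp g) 6
  rw [cb_rt] at e3
  rw [cb_ρ] at e4 e5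
  rw [cb_tp] at e7
  have hi : i = 0 ∨ i = 1 ∨ i = 2 ∨ i = 3 ∨ i = 4 ∨ i = 5 ∨ i = 6 ∨ i = 7 := by
    revert i; decide
  simp only [fwd, Bool.or_eq_true, Bool.and_eq_true, decide_eq_true_eq]
  have c2 : (cp (g, i)).2 = i.1 := rfl
  have c1 : (cp (g, i)).1 = cb g := rfl
  rw [c2, c1]
  rcases hi with rfl | rfl | rfl | rfl | rfl | rfl | rfl | rfl
  · simp
  · simp
  · simp
  · have hp : (dat φ).pg.π (g, 3) = ((dat φ).rt g, 2) := rfl
    rw [hp]
    simpa using e3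
  · have hp : (dat φ).pg.π (g, 4) = ((dat φ).ρ g, 1) := rfl
    rw [hp]
    simpa using e4
  · have hp : (dat φ).pg.π (g, 5) = ((dat φ).ρ g, 0) := rfl
    rw [hp]
    simpa using e5
  · simp
  · have hp : (dat φ).pg.π (g, 7) = ((dat φ).tp g, 6) := rfl
    rw [hp]
    simpa using e7

lemma π_iff (p q : ((Fin (nV φ + 1) × Fin (φ.length + 1)) × Bool) × Fin 8) :
    q = (dat φ).pg.π p ↔ fwd (nV φ) φ.length (cp p) (cp q) = true ∨
      fwd (nV φ) φ.length (cp q) (cp p) = true := by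
  rw [fwd_iff, fwd_iff]
  have hsymm : ∀ p q, q = (dat φ).pg.π p → p = (dat φ).pg.π q := by
    rintro p q rfl
    rw [(dat φ).pg.inv]
  constructor
  · intro h
    by_cases hp : p.2 = 3 ∨ p.2 = 4 ∨ p.2 = 5 ∨ p.2 = 7
    · exact Or.inl ⟨hp, h⟩
    · right
      refine ⟨?_, hsymm _ _ h⟩
      have h2 : q.2 = pn p.2 := congrArg Prod.snd h
      rw [h2]
      revert hp
      generalize p.2 = i
      revert i
      decide
  · rintro (⟨-, h⟩ | ⟨-, h⟩)
    · exact h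
    · exact hsymm _ _ h

lemma N_iff (p q : ((Fin (nV φ + 1) × Fin (φ.length + 1)) × Bool) × Fin 8) :
    (dat φ).pg.N p q ↔ loc φ (cp p) (cp q) = true ∨ loc φ (cp q) (cp p) = true := by
  obtain ⟨g, i⟩ := p
  obtain ⟨h, j⟩ := q
  have c1 : ∀ (g : (Fin (nV φ + 1) × Fin (φ.length + 1)) × Bool) (i : Fin 8),
      (cp (g, i)).1 = cb g := fun _ _ => rfl
  have c2 : ∀ (g : (Fin (nV φ + 1) × Fin (φ.length + 1)) × Bool) (i : Fin 8),
      (cp (g, i)).2 = i.1 := fun _ _ => rfl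
  have hN : (dat φ).pg.N (g, i) (h, j) ↔
      (g = h ∧ (bE i j = true ∨ (alB φ g.1.1 g.1.2 g.2 = true ∧ xE i j = true))) := Iff.rfl
  rw [hN]
  simp only [loc, c1, c2, Bool.and_eq_true, Bool.or_eq_true, decide_eq_true_eq, cb_inj, bE, xE]
  have a1 : ∀ g : (Fin (nV φ + 1) × Fin (φ.length + 1)) × Bool,
      alB φ (cb g).1.1 (cb g).1.2 (cb g).2 = alB φ g.1.1 g.1.2 g.2 := fun _ => rfl
  rw [a1, a1]
  constructor
  · rintro ⟨rfl, (h1 | h1) | ⟨h2, (h1 | h1)⟩⟩
    · exact Or.inl ⟨rfl, Or.inl h1⟩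
    · exact Or.inr ⟨rfl, Or.inl h1⟩
    · exact Or.inl ⟨rfl, Or.inr ⟨h2, h1⟩⟩
    · exact Or.inr ⟨rfl, Or.inr ⟨h2, h1⟩⟩
  · rintro (⟨rfl, h1 | ⟨h1, h2⟩⟩ | ⟨rfl, h1 | ⟨h1, h2⟩⟩)
    · exact ⟨rfl, Or.inl (Or.inl h1)⟩
    · exact ⟨rfl, Or.inr ⟨h1, Or.inl h2⟩⟩
    · exact ⟨rfl, Or.inl (Or.inr h1)⟩
    · exact ⟨rfl, Or.inr ⟨h1, Or.inr h2⟩⟩

lemma bit_iff (v w : (((Fin (nV φ + 1) × Fin (φ.length + 1)) × Bool) × Fin 8) × Fin (ℓ + 1)) :
    ((dat φ).pg.gr ℓ).Adj v w ↔ bit ℓ φ (cv v) (cv w) = true ∨ bit ℓ φ (cv w) (cv v) = true := by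
  rw [gr_adj, π_iff, N_iff]
  have c1 : ∀ v : (((Fin (nV φ + 1) × Fin (φ.length + 1)) × Bool) × Fin 8) × Fin (ℓ + 1),
      (cv v).1 = cp v.1 := fun _ => rfl
  have c2 : ∀ v : (((Fin (nV φ + 1) × Fin (φ.length + 1)) × Bool) × Fin 8) × Fin (ℓ + 1),
      (cv v).2 = v.2.1 := fun _ => rfl
  simp only [bit, c1, c2, Bool.and_eq_true, Bool.or_eq_true, decide_eq_true_eq, cp_inj]
  have h1 : v.1 = w.1 ↔ w.1 = v.1 := eq_comm
  tauto

lemma mem_verts {t : CV} : t ∈ verts ℓ φ ↔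
    ∃ v : (((Fin (nV φ + 1) × Fin (φ.length + 1)) × Bool) × Fin 8) × Fin (ℓ + 1), cv v = t := by
  obtain ⟨⟨⟨⟨x, c⟩, b⟩, i⟩, k⟩ := t
  simp only [verts, SProd.sprod, List.pair_mem_product, List.mem_range]
  constructor
  · rintro ⟨⟨⟨⟨h1, h2⟩, h3⟩, h4⟩, h5⟩
    exact ⟨((((⟨x, h1⟩, ⟨c, h2⟩), b), ⟨i, h4⟩), ⟨k, h5⟩), rfl⟩
  · rintro ⟨⟨⟨⟨⟨x', c'⟩, b'⟩, i'⟩, k'⟩, h⟩
    simp only [cv, cp, cb, Prod.mk.injEq] at h
    obtain ⟨⟨⟨⟨rfl, rfl⟩, rfl⟩, rfl⟩, rfl⟩ := h
    exact ⟨⟨⟨⟨x'.2, c'.2⟩, by cases b' <;> simp⟩, i'.2⟩, k'.2⟩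

lemma nodup_verts : (verts ℓ φ).Nodup :=
  ((((List.nodup_range.product List.nodup_range).product (by decide)).product
    List.nodup_range).product List.nodup_range)

lemma length_red : (red ℓ φ).length = (verts ℓ φ).length := by simp [red]

/-- the isomorphism -/
theorem exists_iso : Nonempty ((dat φ).pg.gr ℓ ≃g matGraph (red ℓ φ)) := by
  have hidx : ∀ v : (((Fin (nV φ + 1) × Fin (φ.length + 1)) × Bool) × Fin 8) × Fin (ℓ + 1),
      (verts ℓ φ).idxOf (cv v) < (verts ℓ φ).length := fun v =>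
    List.idxOf_lt_length_iff.2 (mem_verts.2 ⟨v, rfl⟩)
  let f : (((Fin (nV φ + 1) × Fin (φ.length + 1)) × Bool) × Fin 8) × Fin (ℓ + 1) →
      Fin (red ℓ φ).length := fun v => ⟨(verts ℓ φ).idxOf (cv v), by
    rw [length_red]; exact hidx v⟩
  have hget : ∀ v, (verts ℓ φ)[(f v).1]'(hidx v) = cv v := fun v => List.getElem_idxOf _
  have hf : Function.Bijective f := by
    constructor
    · intro v w h
      rw [← cv_inj]
      have h1 := hget v
      have h2 := hget w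
      have h3 : (f v).1 = (f w).1 := by rw [h]
      rw [← h1, ← h2]
      simp only [h3]
    · intro i
      have hi : i.1 < (verts ℓ φ).length := by rw [← length_red]; exact i.2
      obtain ⟨v, hv⟩ := mem_verts.1 (List.getElem_mem hi)
      refine ⟨v, Fin.ext ?_⟩
      change (verts ℓ φ).idxOf (cv v) = i.1
      rw [hv]
      exact nodup_verts.idxOf_getElem _ _
  refine ⟨⟨Equiv.ofBijective f hf, ?_⟩⟩
  intro v w
  rw [bit_iff]
  have hbit : ∀ v w, ((red ℓ φ).getD (f v).1 []).getD (f w).1 false = bit ℓ φ (cv v) (cv w) := by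
    intro v w
    have h1 : (red ℓ φ).getD (f v).1 [] = (verts ℓ φ).map fun w => bit ℓ φ (cv v) w := by
      rw [List.getD_eq_getElem _ _ (f v).2]
      unfold red
      rw [List.getElem_map, hget]
    rw [h1, List.getD_eq_getElem _ _ (by rw [List.length_map]; exact hidx w), List.getElem_map,
      hget]
  change (matGraph (red ℓ φ)).Adj (f v) (f w) ↔ _
  rw [matGraph, SimpleGraph.fromRel_adj, hbit, hbit]
  constructor
  · exact fun h => h.2
  · intro h
    refine ⟨fun e => ?_, h⟩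
    have h1 := hf.1 e
    have h2 : ((dat φ).pg.gr ℓ).Adj v w := (bit_iff v w).2 h
    rw [h1] at h2
    exact ((dat φ).pg.gr ℓ).irrefl h2

lemma ham_congr {V W : Type} [Fintype V] [Fintype W] [DecidableEq V] [DecidableEq W]
    {G : SimpleGraph V} {H : SimpleGraph W} (e : G ≃g H) (h3 : 3 ≤ Fintype.card V) :
    G.IsHamiltonian ↔ H.IsHamiltonian := by
  have hc : Fintype.card V = Fintype.card W := Fintype.card_congr e.toEquiv
  rw [isHamiltonian_iff G h3, isHamiltonian_iff H (hc ▸ h3), ← hc]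
  exact ⟨fun h => h.trans ⟨e.toCopy⟩, fun h => h.trans ⟨e.symm.toCopy⟩⟩

/-- The matrix of an existential formula has a Hamiltonian graph if and only if the formula is
satisfiable. -/
theorem red_iff (hφ : φ.IsExistential) (hℓ : 1 ≤ ℓ) :
    (matGraph (red ℓ φ)).IsHamiltonian ↔ φ.Satisfiable := by
  obtain ⟨e⟩ := exists_iso (φ := φ) (ℓ := ℓ)
  have h3 : 3 ≤ Fintype.card ((((Fin (nV φ + 1) × Fin (φ.length + 1)) × Bool) × Fin 8) ×
      Fin (ℓ + 1)) := by
    simp only [Fintype.card_prod, Fintype.card_fin, Fintype.card_bool]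
    have h1 : 1 ≤ (nV φ + 1) * (φ.length + 1) := Nat.mul_pos (by omega) (by omega)
    have h2 : 1 ≤ (nV φ + 1) * (φ.length + 1) * 2 * 8 * (ℓ + 1) := by
      refine Nat.mul_pos (Nat.mul_pos (Nat.mul_pos h1 ?_) ?_) ?_ <;> omega
    nlinarith
  rw [← ham_iff hφ hℓ]
  exact (ham_congr e h3).symm

theorem three_le_length (ℓ : ℕ) (φ : Formula) : 3 ≤ (red ℓ φ).length := by
  obtain ⟨e⟩ := exists_iso (φ := φ) (ℓ := ℓ)
  have h := Fintype.card_congr e.toEquiv
  rw [Fintype.card_fin] at h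
  rw [← h]
  simp only [Fintype.card_prod, Fintype.card_fin, Fintype.card_bool]
  have h1 : 1 ≤ (nV φ + 1) * (φ.length + 1) := Nat.mul_pos (by omega) (by omega)
  have h2 : 1 ≤ (nV φ + 1) * (φ.length + 1) * 2 * 8 * (ℓ + 1) := by
    refine Nat.mul_pos (Nat.mul_pos (Nat.mul_pos h1 ?_) ?_) ?_ <;> omega
  nlinarith

theorem red_free {W : Type*} {F : SimpleGraph W} (a b : W)
    (ha : 3 ≤ (F.neighborSet a).ncard) (hb : 3 ≤ (F.neighborSet b).ncard)
    (hr : F.Reachable a b) (hd : 6 ≤ F.dist a b) (hℓ : F.dist a b ≤ ℓ) :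
    F.Free (matGraph (red ℓ φ)) := by
  obtain ⟨e⟩ := exists_iso (φ := φ) (ℓ := ℓ)
  intro h
  exact free_dat φ a b ha hb hr hd hℓ (h.trans ⟨e.symm.toCopy⟩)

end

end Pool.Agent.Lib.MP_2e830d_lc
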