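import Pool.Agent.Lib.MP_2e830d_lc.Ham

set_option autoImplicit false

/-!
# Ports with tails
-/

namespace Pool.Agent.Lib.MP_2e830d_lc

open SimpleGraph Equiv.Perm

/-- Ports `P`; the tail of the port `p` leads to the tail of the port `π p`; `N` is the adjacency
of the ends of the tails inside the gadgets. -/
structure PG (P : Type*) where
  π : P → P
  N : P → P → Prop
  inv : ∀ p, π (π p) = p
  fp : ∀ p, π p ≠ p
  sym : ∀ p q, N p q → N q p
  irr : ∀ p, ¬ N p p

variable {P : Type*}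

/-- The graph. -/
def PG.gr (G : PG P) (ℓ : ℕ) : SimpleGraph (P × Fin (ℓ + 1)) where
  Adj v w := (v.1 = w.1 ∧ (v.2.1 + 1 = w.2.1 ∨ w.2.1 + 1 = v.2.1)) ∨
    (v.2.1 = ℓ ∧ w.2.1 = ℓ ∧ w.1 = G.π v.1) ∨ (v.2.1 = 0 ∧ w.2.1 = 0 ∧ G.N v.1 w.1)
  symm := ⟨by
    rintro v w (⟨h1, h2⟩ | ⟨h1, h2, h3⟩ | ⟨h1, h2, h3⟩)
    · exact Or.inl ⟨h1.symm, h2.symm⟩
    · exact Or.inr (Or.inl ⟨h2, h1, by rw [h3, G.inv]⟩)
    · exact Or.inr (Or.inr ⟨h2, h1, G.sym _ _ h3⟩)⟩
  loopless := ⟨by
    rintro v (⟨h1, h2⟩ | ⟨h1, h2, h3⟩ | ⟨h1, h2, h3⟩)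
    · omega
    · exact G.fp _ h3.symm
    · exact G.irr _ h3⟩

variable {G : PG P} {ℓ : ℕ}

lemma gr_adj {v w : P × Fin (ℓ + 1)} : (G.gr ℓ).Adj v w ↔
    (v.1 = w.1 ∧ (v.2.1 + 1 = w.2.1 ∨ w.2.1 + 1 = v.2.1)) ∨
    (v.2.1 = ℓ ∧ w.2.1 = ℓ ∧ w.1 = G.π v.1) ∨ (v.2.1 = 0 ∧ w.2.1 = 0 ∧ G.N v.1 w.1) := Iff.rfl

/-- the vertex below -/
def low (v : P × Fin (ℓ + 1)) : P × Fin (ℓ + 1) := (v.1, ⟨v.2.1 - 1, by omega⟩)

/-- the vertex above -/
def up (G : PG P) (v : P × Fin (ℓ + 1)) : P × Fin (ℓ + 1) :=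
  if h : v.2.1 = ℓ then (G.π v.1, v.2) else (v.1, ⟨v.2.1 + 1, by omega⟩)

lemma adj_pos {v w : P × Fin (ℓ + 1)} (hv : v.2.1 ≠ 0) (h : (G.gr ℓ).Adj v w) :
    w = low v ∨ w = up G v := by
  rcases h with ⟨h1, h2 | h2⟩ | ⟨h1, h2, h3⟩ | ⟨h1, h2, h3⟩
  · right
    have := w.2.2
    rw [up, dif_neg (by omega)]
    exact Prod.ext h1.symm (Fin.ext h2.symm)
  · left
    rw [low]
    exact Prod.ext h1.symm (Fin.ext (by simp; omega))
  · right
    rw [up, dif_pos h1]
    exact Prod.ext h3 (Fin.ext (by rw [h1, h2]))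
  · exact absurd h1 hv

lemma adj_zero (hℓ : 1 ≤ ℓ) {v w : P × Fin (ℓ + 1)} (hv : v.2.1 = 0) (h : (G.gr ℓ).Adj v w) :
    w = up G v ∨ (w.2.1 = 0 ∧ G.N v.1 w.1) := by
  rcases h with ⟨h1, h2 | h2⟩ | ⟨h1, h2, h3⟩ | ⟨h1, h2, h3⟩
  · left
    rw [up, dif_neg (by omega)]
    exact Prod.ext h1.symm (Fin.ext h2.symm)
  · omega
  · omega
  · exact Or.inr ⟨h2, h3⟩

lemma adj_up (G : PG P) (v : P × Fin (ℓ + 1)) : (G.gr ℓ).Adj v (up G v) := by
  unfold up
  split_ifs with h
  · exact Or.inr (Or.inl ⟨h, h, rfl⟩)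
  · exact Or.inl ⟨rfl, Or.inl rfl⟩

/-- Soundness: a Hamiltonian cycle gives a perfect matching of the ports. -/
theorem exists_matching [Fintype P] (G : PG P) (hℓ : 1 ≤ ℓ)
    (σ : Equiv.Perm (P × Fin (ℓ + 1))) (hadj : ∀ v, (G.gr ℓ).Adj v (σ v))
    (hc : ∀ x y, σ.SameCycle x y) (h2 : ∀ v, σ v ≠ σ.symm v) :
    ∃ μ : P → P, (∀ p, G.N p (μ p)) ∧ (∀ p, μ (μ p) = p) ∧
      ∀ U : Set P, U.Nonempty → (∀ p ∈ U, G.π p ∈ U) → (∀ p ∈ U, μ p ∈ U) → U = Set.univ := by
  -- the neighbours on the cycle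
  let H : P × Fin (ℓ + 1) → P × Fin (ℓ + 1) → Prop := fun v w => w = σ v ∨ w = σ.symm v
  have Hsymm : ∀ v w, H v w → H w v := by
    rintro v w (rfl | rfl)
    · right; simp
    · left; simp
  have Hadj : ∀ v w, H v w → (G.gr ℓ).Adj v w := by
    rintro v w (rfl | rfl)
    · exact hadj v
    · have := hadj (σ.symm v)
      rw [Equiv.apply_symm_apply] at this
      exact this.symm
  -- a vertex with at most two neighbours
  have Htwo : ∀ v x y, (∀ w, H v w → w = x ∨ w = y) → H v x ∧ H v y := by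
    intro v x y h
    have h3 := h (σ v) (Or.inl rfl)
    have h4 := h (σ.symm v) (Or.inr rfl)
    have h5 := h2 v
    rcases h3 with h3 | h3 <;> rcases h4 with h4 | h4
    · exact absurd (h3.trans h4.symm) h5
    · exact ⟨Or.inl h3.symm, Or.inr h4.symm⟩
    · exact ⟨Or.inr h4.symm, Or.inl h3.symm⟩
    · exact absurd (h3.trans h4.symm) h5
  have Hpos : ∀ v : P × Fin (ℓ + 1), v.2.1 ≠ 0 → H v (low v) ∧ H v (up G v) :=
    fun v hv => Htwo v _ _ fun w hw => adj_pos hv (Hadj v w hw)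
  let z : P → P × Fin (ℓ + 1) := fun p => (p, 0)
  -- the tail edge at a port
  have Hz : ∀ p, H (z p) (up G (z p)) := by
    intro p
    apply Hsymm
    have h3 : up G (z p) = (p, ⟨1, by omega⟩) := by
      rw [up, dif_neg (by simp [z]; omega)]
      simp [z]
    rw [h3]
    have h4 := (Hpos (p, ⟨1, by omega⟩) (by simp)).1
    have h5 : low ((p, ⟨1, by omega⟩) : P × Fin (ℓ + 1)) = z p := by
      simp [low, z]
    rwa [h5] at h4
  have Hex : ∀ p, ∃ q, G.N p q ∧ H (z p) (z q) := by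
    intro p
    have key : ∃ w, H (z p) w ∧ w ≠ up G (z p) := by
      rcases Hz p with h | h
      · exact ⟨σ.symm (z p), Or.inr rfl, fun h' => h2 (z p) (h.symm.trans h'.symm)⟩
      · exact ⟨σ (z p), Or.inl rfl, fun h' => h2 (z p) (h'.trans h)⟩
    obtain ⟨w, hw, hne⟩ := key
    rcases adj_zero hℓ (by simp [z]) (Hadj _ _ hw) with h | ⟨h3, h4⟩
    · exact absurd h hne
    · refine ⟨w.1, h4, ?_⟩
      have h5 : z w.1 = w := Prod.ext rfl (Fin.ext (by simp [z, h3]))
      rwa [h5]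
  choose μ hμN hμH using Hex
  have huniq : ∀ p q, H (z p) (z q) → q = μ p := by
    intro p q h
    have hup : ∀ r, z r ≠ up G (z p) := by
      intro r hr
      have h3 : up G (z p) = (p, ⟨1, by omega⟩) := by
        rw [up, dif_neg (by simp [z]; omega)]
        simp [z]
      rw [h3] at hr
      have := congrArg (fun v : P × Fin (ℓ + 1) => v.2.1) hr
      simp [z] at this
    have h3 := Htwo (z p)
    have hzi : ∀ r s, z r = z s → r = s := fun r s hrs => congrArg Prod.fst hrs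
    rcases Hz p with hu | hu <;> rcases h with h | h <;> rcases hμH p with h' | h'
    · exact absurd (h.trans hu.symm) (hup q)
    · exact absurd (h.trans hu.symm) (hup q)
    · exact absurd (h'.trans hu.symm) (hup _)
    · exact hzi _ _ (h.trans h'.symm)
    · exact hzi _ _ (h.trans h'.symm)
    · exact absurd (h'.trans hu.symm) (hup _)
    · exact absurd (h.trans hu.symm) (hup q)
    · exact absurd (h.trans hu.symm) (hup q)
  refine ⟨μ, hμN, ?_, ?_⟩
  · intro p
    exact (huniq (μ p) p (Hsymm _ _ (hμH p))).symm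
  · intro U hU hπ hμ
    have h3 := closed_eq_univ hc (U := {v : P × Fin (ℓ + 1) | v.1 ∈ U}) (by
      obtain ⟨p, hp⟩ := hU
      exact ⟨z p, hp⟩) (by
      intro v hv
      have h4 : H v (σ v) := Or.inl rfl
      have h5 := Hadj _ _ h4
      change (σ v).1 ∈ U
      have hupU : (up G v).1 ∈ U := by
        unfold up
        split_ifs
        · exact hπ _ hv
        · exact hv
      by_cases hv0 : v.2.1 = 0
      · rcases adj_zero hℓ hv0 h5 with h6 | ⟨h6, h7⟩
        · rw [h6]; exact hupU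
        · have h8 : z v.1 = v := Prod.ext rfl (Fin.ext (by simp [z, hv0]))
          have h9 : z (σ v).1 = σ v := Prod.ext rfl (Fin.ext (by simp [z, h6]))
          have h10 : H (z v.1) (z (σ v).1) := by rw [h8, h9]; exact h4
          rw [huniq _ _ h10]
          exact hμ _ hv
      · rcases adj_pos hv0 h5 with h6 | h6
        · rw [h6]; exact hv
        · rw [h6]; exact hupU)
    ext p
    simp only [Set.mem_univ, iff_true]
    have : z p ∈ {v : P × Fin (ℓ + 1) | v.1 ∈ U} := by rw [h3]; trivial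
    exact this

/-- one step along the oriented tails -/
def stp (G : PG P) (μ : P → P) (o : P → Bool) (v : P × Fin (ℓ + 1)) : P × Fin (ℓ + 1) :=
  if o v.1 then up G v else if v.2.1 = 0 then (μ v.1, v.2) else low v

lemma stp_stp (G : PG P) (μ : P → P) (hμ : ∀ p, μ (μ p) = p) (o : P → Bool)
    (hπo : ∀ p, o (G.π p) = !o p) (hμo : ∀ p, o (μ p) = !o p) (v : P × Fin (ℓ + 1)) :
    stp G μ (fun p => !o p) (stp G μ o v) = v := by
  obtain ⟨p, k, hk⟩ := v
  unfold stp
  by_cases hp : o p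
  · simp only [hp, if_true]
    unfold up
    by_cases h : k = ℓ
    · simp only [h, dite_true, hπo, hp]
      simp [G.inv]
    · simp only [h, dite_false, hp]
      simp [low]
  · simp only [hp]
    by_cases h : k = 0
    · simp only [h, if_true]
      simp [hμo, hp, hμ]
    · simp only [h, if_false]
      unfold low up
      simp only [Bool.false_eq_true, if_false, hp, Bool.not_false, if_true]
      rw [dif_neg (by omega)]
      exact Prod.ext rfl (Fin.ext (by simp; omega))

/-- Completeness. -/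
theorem exists_perm (G : PG P) (μ : P → P) (hμN : ∀ p, G.N p (μ p)) (hμ : ∀ p, μ (μ p) = p)
    (o : P → Bool) (hπo : ∀ p, o (G.π p) = !o p) (hμo : ∀ p, o (μ p) = !o p)
    (hconn : ∀ U : Set P, U.Nonempty → (∀ p ∈ U, G.π p ∈ U) → (∀ p ∈ U, μ p ∈ U) →
      U = Set.univ) :
    ∃ σ : Equiv.Perm (P × Fin (ℓ + 1)), (∀ v, (G.gr ℓ).Adj v (σ v)) ∧
      ∀ x y, σ.SameCycle x y := by
  let σ : Equiv.Perm (P × Fin (ℓ + 1)) :=
    { toFun := stp G μ o
      invFun := stp G μ (fun p => !o p)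
      left_inv := stp_stp G μ hμ o hπo hμo
      right_inv := fun v => by
        have h := stp_stp G μ hμ (fun p => !o p) (fun p => by rw [hπo]) (fun p => by rw [hμo]) v
        simpa using h }
  have hσ : ∀ v, σ v = stp G μ o v := fun v => rfl
  refine ⟨σ, ?_, ?_⟩
  · rintro ⟨p, k, hk⟩
    rw [hσ]
    unfold stp
    by_cases hp : o p
    · simp only [hp, if_true]
      exact adj_up G _
    · simp only [hp, Bool.false_eq_true, if_false]
      by_cases h : k = 0
      · simp only [h, if_true]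
        exact Or.inr (Or.inr ⟨rfl, rfl, hμN p⟩)
      · simp only [h, if_false]
        exact Or.inl ⟨rfl, Or.inr (by simp [low]; omega)⟩
  · let z : P → P × Fin (ℓ + 1) := fun p => (p, 0)
    have htail : ∀ (p : P) (k : ℕ) (hk : k < ℓ + 1), σ.SameCycle (z p) (p, ⟨k, hk⟩) := by
      intro p k
      induction k with
      | zero => intro hk; exact SameCycle.refl _ _
      | succ k ih =>
        intro hk
        refine (ih (by omega)).trans ?_
        by_cases hp : o p
        · have h1 : σ (p, ⟨k, by omega⟩) = (p, ⟨k + 1, hk⟩) := by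
            rw [hσ, stp, if_pos hp, up, dif_neg (by simp; omega)]
          rw [← h1]
          exact (sameCycle_apply_right).2 (SameCycle.refl _ _)
        · have h1 : σ (p, ⟨k + 1, hk⟩) = (p, ⟨k, by omega⟩) := by
            rw [hσ, stp, if_neg hp, if_neg (by simp)]
            simp [low]
          rw [← h1]
          exact (sameCycle_apply_left).2 (SameCycle.refl _ _)
    have hπ : ∀ p, σ.SameCycle (z p) (z (G.π p)) := by
      have key : ∀ p, o p = true → σ.SameCycle (z p) (z (G.π p)) := by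
        intro p hp
        refine (htail p ℓ (by omega)).trans ((SameCycle.trans ?_ (htail (G.π p) ℓ (by omega)).symm))
        have h1 : σ (p, ⟨ℓ, by omega⟩) = (G.π p, ⟨ℓ, by omega⟩) := by
          rw [hσ, stp, if_pos hp, up, dif_pos (by simp)]
        rw [← h1]
        exact (sameCycle_apply_right).2 (SameCycle.refl _ _)
      intro p
      by_cases hp : o p
      · exact key p hp
      · have h1 := key (G.π p) (by rw [hπo]; simpa using hp)
        rw [G.inv] at h1
        exact h1.symm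
    have hμs : ∀ p, σ.SameCycle (z p) (z (μ p)) := by
      have key : ∀ p, o p = false → σ.SameCycle (z p) (z (μ p)) := by
        intro p hp
        have h1 : σ (z p) = z (μ p) := by
          rw [hσ, stp, if_neg (by simp [z, hp]), if_pos (by simp [z])]
        rw [← h1]
        exact (sameCycle_apply_right).2 (SameCycle.refl _ _)
      intro p
      by_cases hp : o p
      · have h1 := key (μ p) (by rw [hμo]; simp [hp])
        rw [hμ] at h1
        exact h1.symm
      · exact key p (by simpa using hp)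
    intro x y
    have h1 := hconn {p | σ.SameCycle (z x.1) (z p)} ⟨x.1, SameCycle.refl _ _⟩
      (fun p hp => SameCycle.trans hp (hπ p)) (fun p hp => SameCycle.trans hp (hμs p))
    have h2 : y.1 ∈ {p | σ.SameCycle (z x.1) (z p)} := by rw [h1]; trivial
    exact (htail x.1 x.2.1 x.2.2).symm.trans (SameCycle.trans h2 (htail y.1 y.2.1 y.2.2))

end Pool.Agent.Lib.MP_2e830d_lc
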